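import Pool.Agent.T6.H95.QG.Lie

/-!
# The Casimir operator of the gauge group and the invariant vectors
-/

set_option autoImplicit false

set_option linter.unusedSectionVars false

namespace Pool.Agent.T6.H95.QG

open MeasureTheory Set Matrix
open scoped ENNReal InnerProductSpace
open Pool.Agent.TH591.TT
open Pool.Agent.H888R2.KC (KI Km)

section cas

variable {B E : Type} [Fintype E] [Fintype B] (Q : Qv B E)

/-- the identity, with rows indexed by `a` and columns by `b` -/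
def Idm (a b : B) : Matrix (Fin (Q.dim a)) (Fin (Q.dim b)) ℝ :=
  Matrix.of fun i j => if (i : ℕ) = j then 1 else 0

theorem Idm_self (a : B) : Idm Q a a = 1 := by
  ext i j
  show (if (i : ℕ) = j then (1 : ℝ) else 0) = _
  rw [Matrix.one_apply]
  simp only [Fin.ext_iff]

theorem Idm_inv {a b : B} (h : a = b) (g : Q.Fam) (hg : IsG Q g) :
    g a * Idm Q a b * (g b)ᵀ = Idm Q a b := by
  subst h
  rw [Idm_self, Matrix.mul_one, orth1 (hg.orth a)]

theorem hs_neg_neg {a b : Type} [Fintype a] [Fintype b] (X : Matrix a b ℝ) :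
    hs (-X) (-X) = hs X X := by
  rw [hs_neg_right, hs_comm, hs_neg_right, neg_neg]

theorem hs_ss {a b : Type} [Fintype a] [Fintype b] (c : ℝ) (X : Matrix a b ℝ) :
    hs (c • X) (c • X) = c ^ 2 * hs X X := by
  rw [hs_smul_right, hs_comm, hs_smul_right]
  ring

theorem casE (h3 : ∀ v ∈ Q.gauge, 3 ≤ Q.dim v) (a b : B)
    (X : Matrix (Fin (Q.dim a)) (Fin (Q.dim b)) ℝ)
    (h0 : a ∉ Q.gauge → b ∉ Q.gauge → X = 0)
    (h1 : a ∈ Q.gauge → a = b → hs (Idm Q a b) X = 0) :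
    1 / 2 * hs X X ≤ ∑ k : Σ w : Q.gauge, KI (Q.dim w),
      hs (sg Q k.1 (nf Q k.1 • Km ℝ k.2) a * X - X * sg Q k.1 (nf Q k.1 • Km ℝ k.2) b)
        (sg Q k.1 (nf Q k.1 • Km ℝ k.2) a * X - X * sg Q k.1 (nf Q k.1 • Km ℝ k.2) b) := by
  have hge : ∀ v : Q.gauge, ∑ k : KI (Q.dim v),
      hs (sg Q v (nf Q v • Km ℝ k) a * X - X * sg Q v (nf Q v • Km ℝ k) b)
        (sg Q v (nf Q v • Km ℝ k) a * X - X * sg Q v (nf Q v • Km ℝ k) b) ≤
      ∑ k : Σ w : Q.gauge, KI (Q.dim w),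
      hs (sg Q k.1 (nf Q k.1 • Km ℝ k.2) a * X - X * sg Q k.1 (nf Q k.1 • Km ℝ k.2) b)
        (sg Q k.1 (nf Q k.1 • Km ℝ k.2) a * X - X * sg Q k.1 (nf Q k.1 • Km ℝ k.2) b) := by
    intro v
    rw [Fintype.sum_sigma]
    exact Finset.single_le_sum (f := fun v : Q.gauge => ∑ k : KI (Q.dim v),
      hs (sg Q v (nf Q v • Km ℝ k) a * X - X * sg Q v (nf Q v • Km ℝ k) b)
        (sg Q v (nf Q v • Km ℝ k) a * X - X * sg Q v (nf Q v • Km ℝ k) b))
      (fun v _ => Finset.sum_nonneg fun k _ => hs_nonneg _) (Finset.mem_univ v)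
  have hX := hs_nonneg X
  by_cases ha : a ∈ Q.gauge
  · have h3a : (3 : ℝ) ≤ Q.dim a := by exact_mod_cast h3 a ha
    have hn := nf_sq Q (h3 a ha)
    have hn0 : 0 ≤ nf Q a ^ 2 := sq_nonneg _
    refine le_trans ?_ (hge ⟨a, ha⟩)
    by_cases hab : a = b
    · subst hab
      have htr : X.trace = 0 := by
        have := h1 ha rfl
        rwa [Idm_self, hs_one_right] at this
      simp only [sg_same]
      have e1 : ∀ k : KI (Q.dim a), hs (nf Q a • Km ℝ k * X - X * nf Q a • Km ℝ k)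
          (nf Q a • Km ℝ k * X - X * nf Q a • Km ℝ k) =
          nf Q a ^ 2 * hs (Km ℝ k * X - X * Km ℝ k) (Km ℝ k * X - X * Km ℝ k) := by
        intro k
        rw [← hs_ss, smul_sub, Matrix.smul_mul, Matrix.mul_smul]
      rw [Finset.sum_congr rfl fun k _ => e1 k, ← Finset.mul_sum, cas_mat, htr]
      have h8 := hs_nonneg (X + Xᵀ)
      rw [hs_add_right, hs_comm (X + Xᵀ) X, hs_comm (X + Xᵀ) Xᵀ, hs_add_right, hs_add_right,
        hs_tp, hs_comm Xᵀ X] at h8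
      have h9 : ((Q.dim a : ℝ) - 2) * hs X X ≤
          ((Q.dim a : ℝ) - 1) * hs X X + hs X Xᵀ - 0 ^ 2 := by nlinarith
      have h10 := mul_le_mul_of_nonneg_left h9 hn0
      rw [← mul_assoc, hn, one_mul] at h10
      linarith
    · simp only [sg_same, sg_ne Q (Ne.symm hab), Matrix.mul_zero, sub_zero]
      have e1 : ∀ k : KI (Q.dim a), hs (nf Q a • Km ℝ k * X) (nf Q a • Km ℝ k * X) =
          nf Q a ^ 2 * hs (Km ℝ k * X) (Km ℝ k * X) := by
        intro k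
        rw [← hs_ss, Matrix.smul_mul]
      rw [Finset.sum_congr rfl fun k _ => e1 k, ← Finset.mul_sum, cas_vec]
      have h9 : ((Q.dim a : ℝ) - 2) * hs X X ≤ ((Q.dim a : ℝ) - 1) * hs X X := by nlinarith
      have h10 := mul_le_mul_of_nonneg_left h9 hn0
      rw [← mul_assoc, hn, one_mul] at h10
      linarith
  · by_cases hb : b ∈ Q.gauge
    · have h3a : (3 : ℝ) ≤ Q.dim b := by exact_mod_cast h3 b hb
      have hn := nf_sq Q (h3 b hb)
      have hn0 : 0 ≤ nf Q b ^ 2 := sq_nonneg _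
      refine le_trans ?_ (hge ⟨b, hb⟩)
      have hab : a ≠ b := fun h => ha (h ▸ hb)
      simp only [sg_same, sg_ne Q hab, Matrix.zero_mul, zero_sub]
      have e1 : ∀ k : KI (Q.dim b), hs (-(X * nf Q b • Km ℝ k)) (-(X * nf Q b • Km ℝ k)) =
          nf Q b ^ 2 * hs (Km ℝ k * Xᵀ) (Km ℝ k * Xᵀ) := by
        intro k
        have h2 : (X * Km ℝ k)ᵀ = -(Km ℝ k * Xᵀ) := by
          rw [Matrix.transpose_mul, Km_tp, Matrix.neg_mul]
        rw [hs_neg_neg, Matrix.mul_smul, hs_ss, ← hs_tp (X * Km ℝ k), h2, hs_neg_neg]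
      rw [Finset.sum_congr rfl fun k _ => e1 k, ← Finset.mul_sum, cas_vec, hs_tp]
      have h9 : ((Q.dim b : ℝ) - 2) * hs X X ≤ ((Q.dim b : ℝ) - 1) * hs X X := by nlinarith
      have h10 := mul_le_mul_of_nonneg_left h9 hn0
      rw [← mul_assoc, hn, one_mul] at h10
      linarith
    · have hX0 := h0 ha hb
      have : hs X X = 0 := by rw [hX0]; simp [hs]
      rw [this, mul_zero]
      exact Finset.sum_nonneg fun k _ => hs_nonneg _

/-- the invariant vectors -/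
def FQ : Submodule ℝ (V Q.Ix) where
  carrier := {x | ∀ g, IsG Q g → RQ Q g x = x}
  add_mem' := by
    intro x y hx hy g hg
    rw [map_add, hx g hg, hy g hg]
  zero_mem' := by
    intro g _
    rw [map_zero]
  smul_mem' := by
    intro c x hx g hg
    rw [map_smul, hx g hg]

open Classical in
/-- the point with the matrix `M` at the arrow `e` and `0` elsewhere -/
noncomputable def atE (e : E) (M : Matrix (Fin (Q.dim (Q.tgt e))) (Fin (Q.dim (Q.src e))) ℝ) :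
    V Q.Ix := mkQ Q (Function.update 0 e M)

theorem mat_atE_same (e : E) (M : Matrix (Fin (Q.dim (Q.tgt e))) (Fin (Q.dim (Q.src e))) ℝ) :
    mat Q e (atE Q e M) = M := by
  classical
  exact Function.update_self
    (β := fun e => Matrix (Fin (Q.dim (Q.tgt e))) (Fin (Q.dim (Q.src e))) ℝ) e M 0

theorem mat_atE_ne {e e' : E} (h : e' ≠ e)
    (M : Matrix (Fin (Q.dim (Q.tgt e))) (Fin (Q.dim (Q.src e))) ℝ) :
    mat Q e' (atE Q e M) = 0 := by
  classical
  exact Function.update_of_ne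
    (β := fun e => Matrix (Fin (Q.dim (Q.tgt e))) (Fin (Q.dim (Q.src e))) ℝ) h M 0

theorem inner_atE (e : E) (M : Matrix (Fin (Q.dim (Q.tgt e))) (Fin (Q.dim (Q.src e))) ℝ)
    (x : V Q.Ix) : ⟪atE Q e M, x⟫_ℝ = hs M (mat Q e x) := by
  rw [innerQ, Finset.sum_eq_single e]
  · rw [mat_atE_same]
  · intro e' _ h
    rw [mat_atE_ne Q h]
    simp [hs]
  · intro h
    exact absurd (Finset.mem_univ e) h

theorem atE_mem (e : E) (M : Matrix (Fin (Q.dim (Q.tgt e))) (Fin (Q.dim (Q.src e))) ℝ)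
    (hM : ∀ g, IsG Q g → g (Q.tgt e) * M * (g (Q.src e))ᵀ = M) : atE Q e M ∈ FQ Q := by
  intro g hg
  refine extQ fun e' => ?_
  rw [mat_RQ]
  by_cases h : e' = e
  · subst h
    rw [mat_atE_same, hM g hg]
  · rw [mat_atE_ne Q h, Matrix.mul_zero, Matrix.zero_mul]

theorem atE_mem_free (e : E) (M : Matrix (Fin (Q.dim (Q.tgt e))) (Fin (Q.dim (Q.src e))) ℝ)
    (h1 : Q.tgt e ∉ Q.gauge) (h2 : Q.src e ∉ Q.gauge) : atE Q e M ∈ FQ Q :=
  atE_mem Q e M fun g hg => by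
    rw [hg.2 _ h1, hg.2 _ h2, Matrix.transpose_one, Matrix.one_mul, Matrix.mul_one]

theorem atE_mem_loop (e : E) (h : Q.tgt e = Q.src e) :
    atE Q e (Idm Q (Q.tgt e) (Q.src e)) ∈ FQ Q :=
  atE_mem Q e _ fun g hg => Idm_inv Q h g hg

/-- one parameter groups in the gauge group -/
theorem pathQ (v : B) (hv : v ∈ Q.gauge) (M : Matrix (Fin (Q.dim v)) (Fin (Q.dim v)) ℝ)
    (hM : Mᵀ = -M) : ∃ U : ℝ → Q.Fam, (∀ t, IsG Q (U t)) ∧ (∀ w, U 0 w = 1) ∧
      (∀ s t, U (s + t) = fun w => U s w * U t w) ∧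
      ∀ w a b, HasDerivAt (fun t => U t w a b) (sg Q v M w a b) 0 := by
  classical
  obtain ⟨U, hU, h0, hadd, hder⟩ := exp_path M hM
  have hdet : ∀ t, IsSO (U t) := fun t => ⟨hU t, by
    have h1 : U t = U (t / 2) * U (t / 2) := by rw [← hadd]; congr 1; ring
    rw [h1, Matrix.det_mul]
    rcases det_or (hU (t / 2)) with h | h <;> rw [h] <;> norm_num⟩
  obtain ⟨F, hF⟩ : ∃ F : ℝ → Q.Fam, F = fun t => Function.update
    (β := fun v => Matrix (Fin (Q.dim v)) (Fin (Q.dim v)) ℝ) (fun _ => 1) v (U t) := ⟨_, rfl⟩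
  have hFs : ∀ t, F t v = U t := fun t => by
    rw [hF]
    exact Function.update_self (β := fun v => Matrix (Fin (Q.dim v)) (Fin (Q.dim v)) ℝ) v (U t) _
  have hFn : ∀ t w, w ≠ v → F t w = 1 := fun t w hw => by
    rw [hF]
    exact Function.update_of_ne (β := fun v => Matrix (Fin (Q.dim v)) (Fin (Q.dim v)) ℝ) hw (U t) _
  refine ⟨F, fun t => ⟨fun w hw => ?_, fun w hw => ?_⟩, fun w => ?_, fun s t => ?_,
    fun w a b => ?_⟩
  · by_cases h : w = v
    · subst h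
      rw [hFs]
      exact hdet t
    · rw [hFn t w h]
      exact IsSO.one
  · have h : w ≠ v := fun h => hw (h ▸ hv)
    exact hFn t w h
  · by_cases h : w = v
    · subst h
      rw [hFs, h0]
    · exact hFn 0 w h
  · funext w
    by_cases h : w = v
    · subst h
      rw [hFs, hFs, hFs, hadd]
    · rw [hFn _ w h, hFn _ w h, hFn _ w h, Matrix.one_mul]
  · by_cases h : w = v
    · subst h
      simp only [hFs, sg_same]
      exact hder a b
    · have e1 : (fun t => F t w a b) = fun _ => (1 : Matrix (Fin (Q.dim w)) (Fin (Q.dim w)) ℝ) a b := by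
        funext t
        rw [hFn t w h]
      rw [e1, sg_ne Q h]
      exact hasDerivAt_const _ _

theorem nKm_tp (v : B) (k : KI (Q.dim v)) : (nf Q v • Km ℝ k)ᵀ = -(nf Q v • Km ℝ k) := by
  rw [Matrix.transpose_smul, Km_tp, smul_neg]

theorem AQ_fix (k : Σ w : Q.gauge, KI (Q.dim w)) (x : V Q.Ix) (hx : x ∈ FQ Q) : AQ Q k x = 0 := by
  obtain ⟨U, hU, h0, hadd, hder⟩ := pathQ Q k.1 k.1.2 (nf Q k.1 • Km ℝ k.2) (nKm_tp Q _ _)
  have h1 := RQ_der (sg Q k.1 (nf Q k.1 • Km ℝ k.2)) (sg_tp Q _ _ (nKm_tp Q _ _)) U h0 hder x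
  have h3 : (fun t => RQ Q (U t) x) = fun _ => x := by
    funext t
    exact hx (U t) (hU t)
  rw [h3] at h1
  exact h1.unique (hasDerivAt_const _ _)

theorem casQ' (h3 : ∀ v ∈ Q.gauge, 3 ≤ Q.dim v) (x : V Q.Ix)
    (h0 : ∀ e, Q.tgt e ∉ Q.gauge → Q.src e ∉ Q.gauge → mat Q e x = 0)
    (h1 : ∀ e, Q.tgt e ∈ Q.gauge → Q.tgt e = Q.src e →
      hs (Idm Q (Q.tgt e) (Q.src e)) (mat Q e x) = 0) :
    1 / 2 * ‖x‖ ^ 2 ≤ ∑ k, ‖AQ Q k x‖ ^ 2 := by
  have e1 : ∑ k, ‖AQ Q k x‖ ^ 2 = ∑ e, ∑ k, hs (mat Q e (AQ Q k x)) (mat Q e (AQ Q k x)) := by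
    rw [Finset.sum_comm]
    exact Finset.sum_congr rfl fun k _ => normQ _
  rw [e1, normQ, Finset.mul_sum]
  exact Finset.sum_le_sum fun e _ => casE Q h3 _ _ _ (h0 e) (h1 e)

/-- the orthonormal basis of the invariant vectors -/
noncomputable def ebQ (j : Fin (Module.finrank ℝ (FQ Q))) : V Q.Ix :=
  (stdOrthonormalBasis ℝ (FQ Q) j : V Q.Ix)

theorem ebQ_orth : Orthonormal ℝ (ebQ Q) := by
  have h := (stdOrthonormalBasis ℝ (FQ Q)).orthonormal
  exact h.comp_linearIsometry (FQ Q).subtypeₗᵢ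

theorem ebQ_sum (w : V Q.Ix) :
    ∑ j, ⟪ebQ Q j, w⟫_ℝ ^ 2 = ‖(FQ Q).orthogonalProjection w‖ ^ 2 := by
  have h := (stdOrthonormalBasis ℝ (FQ Q)).sum_sq_norm_inner_right
    ((FQ Q).orthogonalProjection w)
  rw [← h]
  refine Finset.sum_congr rfl fun j _ => ?_
  rw [Real.norm_eq_abs, sq_abs]
  congr 1
  have h2 : ⟪stdOrthonormalBasis ℝ (FQ Q) j, (FQ Q).orthogonalProjection w⟫_ℝ =
      ⟪(stdOrthonormalBasis ℝ (FQ Q) j : V Q.Ix), ((FQ Q).orthogonalProjection w : V Q.Ix)⟫_ℝ := rfl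
  rw [h2]
  have h3 : ⟪(stdOrthonormalBasis ℝ (FQ Q) j : V Q.Ix), w - (FQ Q).orthogonalProjection w⟫_ℝ = 0 :=
    Submodule.sub_starProjection_mem_orthogonal (K := FQ Q) w _
      (stdOrthonormalBasis ℝ (FQ Q) j).2
  rw [inner_sub_right] at h3
  show ⟪(stdOrthonormalBasis ℝ (FQ Q) j : V Q.Ix), w⟫_ℝ = _
  linarith

theorem casQ (h3 : ∀ v ∈ Q.gauge, 3 ≤ Q.dim v) (w : V Q.Ix) :
    1 / 2 * (‖w‖ ^ 2 - ∑ j, ⟪ebQ Q j, w⟫_ℝ ^ 2) ≤ ∑ k, ‖AQ Q k w‖ ^ 2 := by
  rw [ebQ_sum]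
  obtain ⟨p, hp⟩ : ∃ p : V Q.Ix, p = ((FQ Q).orthogonalProjection w : V Q.Ix) := ⟨_, rfl⟩
  obtain ⟨w', hw'⟩ : ∃ w' : V Q.Ix, w' = w - p := ⟨_, rfl⟩
  have hpF : p ∈ FQ Q := by rw [hp]; exact ((FQ Q).orthogonalProjection w).2
  have hw'F : ∀ f ∈ FQ Q, ⟪f, w'⟫_ℝ = 0 := by
    rw [hw', hp]
    exact fun f hf => Submodule.sub_starProjection_mem_orthogonal (K := FQ Q) w f hf
  have hpn : ‖(FQ Q).orthogonalProjection w‖ = ‖p‖ := by rw [hp]; rfl
  have hww : w = p + w' := by rw [hw']; abel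
  have hn : ‖w‖ ^ 2 = ‖p‖ ^ 2 + ‖w'‖ ^ 2 := by
    rw [hww, norm_add_sq_real, hw'F p hpF]
    ring
  have hD : ∀ k, ‖AQ Q k w‖ ^ 2 = ‖AQ Q k w'‖ ^ 2 := by
    intro k
    rw [hww, map_add, AQ_fix Q k p hpF, zero_add]
  rw [Finset.sum_congr rfl fun k _ => hD k, hpn, hn]
  have h1 := casQ' Q h3 w' (fun e ht hs' => by
    have h2 := hw'F _ (atE_mem_free Q e (mat Q e w') ht hs')
    rw [inner_atE] at h2
    have h5 := normQ (atE Q e (mat Q e w'))
    have h6 : ⟪atE Q e (mat Q e w'), atE Q e (mat Q e w')⟫_ℝ = 0 := by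
      rw [inner_atE, mat_atE_same, h2]
    rw [inner_self_eq_zero] at h6
    have h7 := congrArg (mat Q e) h6
    rw [mat_atE_same, map_zero] at h7
    exact h7) (fun e _ h => by
    have h2 := hw'F _ (atE_mem_loop Q e h)
    rwa [inner_atE] at h2)
  have e : ‖p‖ ^ 2 + ‖w'‖ ^ 2 - ‖p‖ ^ 2 = ‖w'‖ ^ 2 := by ring
  rw [e]
  exact h1

/-- the number of the invariant coordinates: the loops at gauge vertices (traces) and the entries of
the matrices of the arrows between vertices which are not gauge vertices -/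
noncomputable def fixN : ℕ :=
  Nat.card {e : E // Q.tgt e = Q.src e ∧ Q.tgt e ∈ Q.gauge} +
    Nat.card (Σ e : {e : E // Q.tgt e ∉ Q.gauge ∧ Q.src e ∉ Q.gauge},
      Fin (Q.dim (Q.tgt e.1)) × Fin (Q.dim (Q.src e.1)))

theorem FQ_le (h3 : ∀ v ∈ Q.gauge, 3 ≤ Q.dim v) : Module.finrank ℝ (FQ Q) ≤ fixN Q := by
  classical
  let J : Type := {e : E // Q.tgt e = Q.src e ∧ Q.tgt e ∈ Q.gauge} ⊕
    (Σ e : {e : E // Q.tgt e ∉ Q.gauge ∧ Q.src e ∉ Q.gauge},
      Fin (Q.dim (Q.tgt e.1)) × Fin (Q.dim (Q.src e.1)))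
  have hJ : Fintype J := Fintype.ofFinite _
  let F : FQ Q →ₗ[ℝ] (J → ℝ) :=
    { toFun := fun x l => Sum.elim
        (fun e => hs (Idm Q (Q.tgt e.1) (Q.src e.1)) (mat Q e.1 (x : V Q.Ix)))
        (fun p => mat Q p.1.1 (x : V Q.Ix) p.2.1 p.2.2) l
      map_add' := fun x y => by
        funext l
        rcases l with e | p
        · simp only [Submodule.coe_add, map_add, hs_add_right, Pi.add_apply, Sum.elim_inl]
        · simp only [Submodule.coe_add, map_add, Pi.add_apply, Sum.elim_inr, Matrix.add_apply]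
      map_smul' := fun c x => by
        funext l
        rcases l with e | p
        · simp only [Submodule.coe_smul, map_smul, hs_smul_right, Pi.smul_apply, Sum.elim_inl,
            smul_eq_mul, RingHom.id_apply]
        · simp only [Submodule.coe_smul, map_smul, Pi.smul_apply, Sum.elim_inr, Matrix.smul_apply,
            smul_eq_mul, RingHom.id_apply] }
  have hF : Function.Injective F := by
    rw [injective_iff_map_eq_zero]
    rintro ⟨x, hx⟩ h0
    have h1 := casQ' Q h3 x (fun e ht hs' => by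
      ext i j
      have := congrFun h0 (Sum.inr ⟨⟨e, ht, hs'⟩, (i, j)⟩)
      exact this) (fun e ht h => by
      have := congrFun h0 (Sum.inl ⟨e, h, ht⟩)
      exact this)
    have h2 : ∑ k, ‖AQ Q k x‖ ^ 2 = 0 := by
      refine Finset.sum_eq_zero fun k _ => ?_
      rw [AQ_fix Q k x hx, norm_zero]
      norm_num
    rw [h2] at h1
    have h4 : ‖x‖ ^ 2 ≤ 0 := by linarith
    have h5 : x = 0 := by
      have h6 : ‖x‖ ^ 2 = 0 := le_antisymm h4 (sq_nonneg _)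
      exact norm_eq_zero.1 (pow_eq_zero_iff (two_ne_zero) |>.1 h6)
    exact Subtype.ext h5
  have h := LinearMap.finrank_le_finrank_of_injective hF
  rw [Module.finrank_fintype_fun_eq_card] at h
  have h2 : Fintype.card J = fixN Q := by
    rw [← Nat.card_eq_fintype_card]
    exact Nat.card_sum
  rwa [h2] at h

theorem dataQ (h3 : ∀ v ∈ Q.gauge, 3 ≤ Q.dim v) :
    LD (GQ Q) (AQ Q) (ebQ Q) 1 (1 / 2) := by
  refine ⟨?_, AQ_struc Q h3, one_pos, by norm_num, ebQ_orth Q, casQ Q h3, ?_, ?_⟩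
  · intro k x y
    exact DQ_skew (sg_tp Q _ _ (nKm_tp Q _ _)) _ _
  · intro k
    obtain ⟨U, hU, h0, hadd, hder⟩ := pathQ Q k.1 k.1.2 (nf Q k.1 • Km ℝ k.2) (nKm_tp Q _ _)
    refine ⟨fun t => isoQ (U t) (hU t), fun t => isoQ_mem _ _, ?_, ?_, ?_⟩
    · intro x
      rw [isoQ_apply]
      have : U 0 = fun _ => 1 := funext h0
      rw [this, RQ_one]
    · intro s t x
      rw [isoQ_apply, isoQ_apply, isoQ_apply, RQ_RQ, hadd]
    · intro x
      exact RQ_der (sg Q k.1 (nf Q k.1 • Km ℝ k.2)) (sg_tp Q _ _ (nKm_tp Q _ _)) U h0 hder x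
  · rintro e ⟨g, hg, he⟩ j
    rw [he]
    exact (stdOrthonormalBasis ℝ (FQ Q) j).2 g hg

end cas

end Pool.Agent.T6.H95.QG
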