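import Pool.Agent.T6.H95.QG.LB

/-!
# Tails of the operator norms of the matrices of the arrows
-/

set_option autoImplicit false

set_option linter.unusedSectionVars false

namespace Pool.Agent.T6.H95.QG

open MeasureTheory Set Matrix
open scoped ENNReal InnerProductSpace
open Pool.Agent.TH591.TT
open Pool.Agent.H212R2.KLS (mu Bdd)

section et

variable {B E : Type} [Fintype E] (Q : Qv B E)

open Classical in
/-- the family which has the matrix `g` at `v` and the identity elsewhere -/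
noncomputable def ug (v : B) (g : Matrix (Fin (Q.dim v)) (Fin (Q.dim v)) ℝ) : Q.Fam :=
  Function.update (fun _ => 1) v g

theorem ug_same (v : B) (g : Matrix (Fin (Q.dim v)) (Fin (Q.dim v)) ℝ) : ug Q v g v = g := by
  classical
  exact Function.update_self
    (β := fun v => Matrix (Fin (Q.dim v)) (Fin (Q.dim v)) ℝ) v g _

theorem ug_ne {v w : B} (h : w ≠ v) (g : Matrix (Fin (Q.dim v)) (Fin (Q.dim v)) ℝ) :
    ug Q v g w = 1 := by
  classical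
  exact Function.update_of_ne
    (β := fun v => Matrix (Fin (Q.dim v)) (Fin (Q.dim v)) ℝ) h g _

theorem ug_isG {v : B} (hv : v ∈ Q.gauge) (g : Matrix (Fin (Q.dim v)) (Fin (Q.dim v)) ℝ)
    (hg : IsSO g) : IsG Q (ug Q v g) := by
  refine ⟨fun w hw => ?_, fun w hw => ?_⟩
  · by_cases h : w = v
    · subst h
      rw [ug_same]
      exact hg
    · rw [ug_ne Q h]
      exact IsSO.one
  · have h : w ≠ v := fun h => hw (by rw [h]; exact hv)
    exact ug_ne Q h g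

/-- the matrix of a loop as a square matrix -/
def cM {a b : B} (h : b = a) (X : Matrix (Fin (Q.dim a)) (Fin (Q.dim b)) ℝ) :
    Matrix (Fin (Q.dim a)) (Fin (Q.dim a)) ℝ :=
  X.submatrix id (Fin.cast (congrArg Q.dim h.symm))

theorem cM_self {a : B} (X : Matrix (Fin (Q.dim a)) (Fin (Q.dim a)) ℝ) : cM Q rfl X = X := rfl

theorem cM_conj {a b : B} (h : b = a) (g : Q.Fam)
    (X : Matrix (Fin (Q.dim a)) (Fin (Q.dim b)) ℝ) :
    cM Q h (g a * X * (g b)ᵀ) = g a * cM Q h X * (g a)ᵀ := by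
  subst h
  rfl

theorem cM_hs {a b : B} (h : b = a) (X : Matrix (Fin (Q.dim a)) (Fin (Q.dim b)) ℝ) :
    hs (cM Q h X) (cM Q h X) = hs X X := by
  subst h
  rfl

theorem cM_norm {a b : B} (h : b = a) (X : Matrix (Fin (Q.dim a)) (Fin (Q.dim b)) ℝ) :
    ‖tm (cM Q h X)‖ = ‖tm X‖ := by
  subst h
  rfl

/-- the matrix of a loop -/
def Tl (e : E) (h : Q.src e = Q.tgt e) : V Q.Ix →ₗ[ℝ] V (Ix 1 0 (Q.dim (Q.tgt e))) where
  toFun x := mk (fun _ => cM Q h (mat Q e x)) 0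
  map_add' x y := by
    refine ext_mv (fun j => ?_) ?_
    · rw [mt_mk, map_add, map_add, mt_mk, mt_mk]
      rfl
    · rw [vt_mk, map_add, vt_mk, vt_mk, add_zero]
  map_smul' c x := by
    refine ext_mv (fun j => ?_) ?_
    · rw [mt_mk, map_smul, map_smul, mt_mk]
      rfl
    · rw [vt_mk, map_smul, vt_mk, smul_zero]

/-- the matrix of an arrow -/
def Tt (e : E) : V Q.Ix →ₗ[ℝ] V (Ix 0 (Q.dim (Q.src e)) (Q.dim (Q.tgt e))) where
  toFun x := mk (fun _ => 0) (mat Q e x)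
  map_add' x y := by
    refine ext_mv (fun j => j.elim0) ?_
    rw [vt_mk, map_add, map_add, vt_mk, vt_mk]
  map_smul' c x := by
    refine ext_mv (fun j => j.elim0) ?_
    rw [vt_mk, map_smul, map_smul, vt_mk]
    rfl

/-- the transpose of the matrix of an arrow -/
def Ts (e : E) : V Q.Ix →ₗ[ℝ] V (Ix 0 (Q.dim (Q.tgt e)) (Q.dim (Q.src e))) where
  toFun x := mk (fun _ => 0) (mat Q e x)ᵀ
  map_add' x y := by
    refine ext_mv (fun j => j.elim0) ?_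
    rw [vt_mk, map_add, map_add, vt_mk, vt_mk, Matrix.transpose_add]
  map_smul' c x := by
    refine ext_mv (fun j => j.elim0) ?_
    rw [vt_mk, map_smul, map_smul, vt_mk, Matrix.transpose_smul]
    rfl

theorem le_of_sq {a b : ℝ} (hb : 0 ≤ b) (h : a ^ 2 ≤ b ^ 2) : a ≤ b :=
  (abs_le_of_sq_le_sq' h hb).2

theorem Tl_eq (e : E) (h : Q.src e = Q.tgt e) (ht : Q.tgt e ∈ Q.gauge) :
    EqT (GQ Q) (Tl Q e h) := by
  refine ⟨fun x => ?_, fun g hg => ?_⟩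
  · refine le_of_sq (norm_nonneg _) ?_
    rw [norm_mv, Fin.sum_univ_one]
    show hs (cM Q h (mat Q e x)) (cM Q h (mat Q e x)) +
      hs (0 : Matrix (Fin (Q.dim (Q.tgt e))) (Fin 0) ℝ) 0 ≤ _
    rw [cM_hs]
    have : hs (0 : Matrix (Fin (Q.dim (Q.tgt e))) (Fin 0) ℝ) 0 = 0 := by simp [hs]
    rw [this, add_zero]
    exact hs_le x e
  · refine ⟨isoQ (ug Q (Q.tgt e) g) (ug_isG Q ht g hg), isoQ_mem _ _, fun x => ?_⟩
    rw [isoQ_apply]
    refine ext_mv (fun j => ?_) ?_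
    · rw [mt_RR]
      show cM Q h (mat Q e (RQ Q (ug Q (Q.tgt e) g) x)) = g * cM Q h (mat Q e x) * gᵀ
      rw [mat_RQ, cM_conj, ug_same]
    · rw [vt_RR]
      show (0 : Matrix (Fin (Q.dim (Q.tgt e))) (Fin 0) ℝ) = g * 0
      rw [Matrix.mul_zero]

theorem Tt_eq (e : E) (h : Q.src e ≠ Q.tgt e) (ht : Q.tgt e ∈ Q.gauge) :
    EqT (GQ Q) (Tt Q e) := by
  refine ⟨fun x => ?_, fun g hg => ?_⟩
  · refine le_of_sq (norm_nonneg _) ?_
    rw [norm_mv]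
    show (∑ j : Fin 0, _) + hs (mat Q e x) (mat Q e x) ≤ _
    rw [Finset.univ_eq_empty, Finset.sum_empty, zero_add]
    exact hs_le x e
  · refine ⟨isoQ (ug Q (Q.tgt e) g) (ug_isG Q ht g hg), isoQ_mem _ _, fun x => ?_⟩
    rw [isoQ_apply]
    refine ext_mv (fun j => j.elim0) ?_
    rw [vt_RR]
    show mat Q e (RQ Q (ug Q (Q.tgt e) g) x) = g * mat Q e x
    rw [mat_RQ, ug_same, ug_ne Q h, Matrix.transpose_one, Matrix.mul_one]

theorem Ts_eq (e : E) (h : Q.src e ≠ Q.tgt e) (ht : Q.src e ∈ Q.gauge) :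
    EqT (GQ Q) (Ts Q e) := by
  refine ⟨fun x => ?_, fun g hg => ?_⟩
  · refine le_of_sq (norm_nonneg _) ?_
    rw [norm_mv]
    show (∑ j : Fin 0, _) + hs (mat Q e x)ᵀ (mat Q e x)ᵀ ≤ _
    rw [Finset.univ_eq_empty, Finset.sum_empty, zero_add, hs_tp]
    exact hs_le x e
  · refine ⟨isoQ (ug Q (Q.src e) g) (ug_isG Q ht g hg), isoQ_mem _ _, fun x => ?_⟩
    rw [isoQ_apply]
    refine ext_mv (fun j => j.elim0) ?_
    rw [vt_RR]
    show (mat Q e (RQ Q (ug Q (Q.src e) g) x))ᵀ = g * (mat Q e x)ᵀ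
    rw [mat_RQ, ug_same, ug_ne Q (Ne.symm h), Matrix.one_mul, Matrix.transpose_mul,
      Matrix.transpose_transpose]

variable {Q} {ρ : V Q.Ix → ℝ}

theorem tgt_tail (h3 : ∀ v ∈ Q.gauge, 3 ≤ Q.dim v) (hρ : GD (GQ Q) ρ) (hb : Bdd ρ)
    (h1 : mu ρ univ = 1) (s : ℝ) (hs0 : 0 < s)
    (hmom : ∀ θ : V Q.Ix, ∫ x, ⟪θ, x⟫_ℝ ^ 2 ∂(mu ρ) ≤ s * ‖θ‖ ^ 2) (e : E)
    (ht : Q.tgt e ∈ Q.gauge) (u : ℝ) :
    mu ρ {x | ¬ ‖tm (mat Q e x)‖ ≤ 6 * u * Real.sqrt (Q.dim (Q.tgt e) * s)} ≤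
      ENNReal.ofReal (Real.exp (1 + 3 * Q.dim (Q.src e) + Q.dim (Q.tgt e) * (10 - u / 30))) := by
  by_cases h : Q.src e = Q.tgt e
  · refine (measure_mono ?_).trans ((BB_tailS (h3 _ ht) (Tl_eq Q e h ht) hρ hb h1 s hs0 hmom
      u).trans ?_)
    · intro x hx hB
      apply hx
      have h2 := hB.1 0
      have h4 : mt 0 (Tl Q e h x) = cM Q h (mat Q e x) := rfl
      rwa [h4, cM_norm] at h2
    · apply ENNReal.ofReal_le_ofReal
      apply Real.exp_le_exp.2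
      have : (0 : ℝ) ≤ Q.dim (Q.src e) := Nat.cast_nonneg _
      push_cast
      linarith
  · refine (measure_mono ?_).trans ((BB_tailS (h3 _ ht) (Tt_eq Q e h ht) hρ hb h1 s hs0 hmom
      u).trans ?_)
    · intro x hx hB
      apply hx
      exact hB.2
    · apply ENNReal.ofReal_le_ofReal
      apply Real.exp_le_exp.2
      push_cast
      linarith

theorem src_tail (h3 : ∀ v ∈ Q.gauge, 3 ≤ Q.dim v) (hρ : GD (GQ Q) ρ) (hb : Bdd ρ)
    (h1 : mu ρ univ = 1) (s : ℝ) (hs0 : 0 < s)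
    (hmom : ∀ θ : V Q.Ix, ∫ x, ⟪θ, x⟫_ℝ ^ 2 ∂(mu ρ) ≤ s * ‖θ‖ ^ 2) (e : E)
    (ht : Q.src e ∈ Q.gauge) (u : ℝ) :
    mu ρ {x | ¬ ‖tm (mat Q e x)‖ ≤ 6 * u * Real.sqrt (Q.dim (Q.src e) * s)} ≤
      ENNReal.ofReal (Real.exp (1 + 3 * Q.dim (Q.tgt e) + Q.dim (Q.src e) * (10 - u / 30))) := by
  by_cases h : Q.src e = Q.tgt e
  · have ht' : Q.tgt e ∈ Q.gauge := h ▸ ht
    have h2 := tgt_tail h3 hρ hb h1 s hs0 hmom e ht' u
    have e1 : Q.dim (Q.src e) = Q.dim (Q.tgt e) := congrArg Q.dim h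
    have e2 : (Q.dim (Q.src e) : ℝ) = Q.dim (Q.tgt e) := by rw [e1]
    rw [e2]
    rw [e2] at h2
    exact h2
  · refine (measure_mono ?_).trans ((BB_tailS (h3 _ ht) (Ts_eq Q e h ht) hρ hb h1 s hs0 hmom
      u).trans ?_)
    · intro x hx hB
      apply hx
      have h2 : ‖tm (mat Q e x)ᵀ‖ ≤ _ := hB.2
      have h4 := norm_tp (mat Q e x)ᵀ
      rw [Matrix.transpose_transpose] at h4
      exact h4.trans h2
    · apply ENNReal.ofReal_le_ofReal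
      apply Real.exp_le_exp.2
      push_cast
      linarith

theorem AR_tail (h3 : ∀ v ∈ Q.gauge, 3 ≤ Q.dim v) (hρ : GD (GQ Q) ρ) (hb : Bdd ρ)
    (h1 : mu ρ univ = 1) (s : ℝ) (hs0 : 0 < s)
    (hmom : ∀ θ : V Q.Ix, ∫ x, ⟪θ, x⟫_ℝ ^ 2 ∂(mu ρ) ≤ s * ‖θ‖ ^ 2) (u : B → B → ℝ) (Λ : ℝ)
    (hu : ∀ v ∈ Q.gauge, ∀ o, 1 + 3 * (Q.dim o : ℝ) + Q.dim v * (10 - u v o / 30) ≤ -Λ) :
    mu ρ (AR Q fun v o => 6 * u v o * Real.sqrt (Q.dim v * s))ᶜ ≤
      ENNReal.ofReal (2 * Fintype.card E * Real.exp (-Λ)) := by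
  have hcov : (AR Q fun v o => 6 * u v o * Real.sqrt (Q.dim v * s))ᶜ ⊆
      ⋃ e : E, ({x | Q.tgt e ∈ Q.gauge ∧ ¬ ‖tm (mat Q e x)‖ ≤
        6 * u (Q.tgt e) (Q.src e) * Real.sqrt (Q.dim (Q.tgt e) * s)} ∪
        {x | Q.src e ∈ Q.gauge ∧ ¬ ‖tm (mat Q e x)‖ ≤
        6 * u (Q.src e) (Q.tgt e) * Real.sqrt (Q.dim (Q.src e) * s)}) := by
    intro x hx
    by_contra hnot
    rw [mem_iUnion, not_exists] at hnot
    apply hx
    intro e
    have h2 := hnot e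
    rw [mem_union, not_or] at h2
    refine ⟨fun h => ?_, fun h => ?_⟩
    · by_contra hc
      exact h2.1 ⟨h, hc⟩
    · by_contra hc
      exact h2.2 ⟨h, hc⟩
  have hE : ∀ e : E, mu ρ ({x | Q.tgt e ∈ Q.gauge ∧ ¬ ‖tm (mat Q e x)‖ ≤
        6 * u (Q.tgt e) (Q.src e) * Real.sqrt (Q.dim (Q.tgt e) * s)} ∪
        {x | Q.src e ∈ Q.gauge ∧ ¬ ‖tm (mat Q e x)‖ ≤
        6 * u (Q.src e) (Q.tgt e) * Real.sqrt (Q.dim (Q.src e) * s)}) ≤
      ENNReal.ofReal (2 * Real.exp (-Λ)) := by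
    intro e
    refine (measure_union_le _ _).trans ?_
    have h2 : mu ρ {x | Q.tgt e ∈ Q.gauge ∧ ¬ ‖tm (mat Q e x)‖ ≤
        6 * u (Q.tgt e) (Q.src e) * Real.sqrt (Q.dim (Q.tgt e) * s)} ≤
        ENNReal.ofReal (Real.exp (-Λ)) := by
      by_cases h : Q.tgt e ∈ Q.gauge
      · refine (measure_mono fun x hx => hx.2).trans
          ((tgt_tail h3 hρ hb h1 s hs0 hmom e h _).trans ?_)
        exact ENNReal.ofReal_le_ofReal (Real.exp_le_exp.2 (hu _ h _))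
      · have : {x : V Q.Ix | Q.tgt e ∈ Q.gauge ∧ ¬ ‖tm (mat Q e x)‖ ≤
          6 * u (Q.tgt e) (Q.src e) * Real.sqrt (Q.dim (Q.tgt e) * s)} = ∅ := by
          ext x
          simp [h]
        rw [this, measure_empty]
        exact bot_le
    have h4 : mu ρ {x | Q.src e ∈ Q.gauge ∧ ¬ ‖tm (mat Q e x)‖ ≤
        6 * u (Q.src e) (Q.tgt e) * Real.sqrt (Q.dim (Q.src e) * s)} ≤
        ENNReal.ofReal (Real.exp (-Λ)) := by
      by_cases h : Q.src e ∈ Q.gauge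
      · refine (measure_mono fun x hx => hx.2).trans
          ((src_tail h3 hρ hb h1 s hs0 hmom e h _).trans ?_)
        exact ENNReal.ofReal_le_ofReal (Real.exp_le_exp.2 (hu _ h _))
      · have : {x : V Q.Ix | Q.src e ∈ Q.gauge ∧ ¬ ‖tm (mat Q e x)‖ ≤
          6 * u (Q.src e) (Q.tgt e) * Real.sqrt (Q.dim (Q.src e) * s)} = ∅ := by
          ext x
          simp [h]
        rw [this, measure_empty]
        exact bot_le
    refine (add_le_add h2 h4).trans ?_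
    rw [← ENNReal.ofReal_add (Real.exp_pos _).le (Real.exp_pos _).le, two_mul]
  refine (measure_mono hcov).trans ((measure_iUnion_fintype_le _ _).trans
    ((Finset.sum_le_sum fun e _ => hE e).trans ?_))
  rw [Finset.sum_const, Finset.card_univ, nsmul_eq_mul, ← ENNReal.ofReal_natCast,
    ← ENNReal.ofReal_mul (Nat.cast_nonneg _)]
  apply ENNReal.ofReal_le_ofReal
  linarith

end et

end Pool.Agent.T6.H95.QG
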