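import Pool.Agent.T6.H95.QG.Klsb
import Pool.Agent.T6.H95.QG.ET
import Pool.Agent.H888R2.KB.T3
import Pool.Agent.H888R2.KB.F0

/-!
# The variance of Lipschitz functions: densities of bounded support
-/

set_option autoImplicit false

namespace Pool.Agent.T6.H95.QG

open MeasureTheory Set Matrix
open scoped ENNReal InnerProductSpace
open Pool.Agent.TH591.TT
open Pool.Agent.H212R2.KLS (mu Bdd)
open Pool.Agent.H888R2.KT (LC tw St)
open Pool.Agent.H888R2.KB (glue0 fourth)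

/-- the local Poincare inequality on `B` -/
theorem local_UT {κ κ' : Type} [Fintype κ] [Fintype κ'] {q : ℕ} {U : ℝ} (hUT : UT q U)
    {G : Set (V κ ≃ₗᵢ[ℝ] V κ)} {A : κ' → (V κ →ₗ[ℝ] V κ)} {e : Fin q → V κ} {κ0 cV : ℝ}
    {ρ : V κ → ℝ}
    (h : LD G A e κ0 cV) (hρ : GD G ρ) (hb : Bdd ρ) (h1 : mu ρ univ = 1) (s : ℝ) (hs : 0 < s)
    (hmom : ∀ θ : V κ, ∫ x, ⟪θ, x⟫_ℝ ^ 2 ∂(mu ρ) ≤ s * ‖θ‖ ^ 2) (L : ℝ) (hL0 : 0 ≤ L)
    (B : Set (V κ)) (hBc : Convex ℝ B) (hBm : MeasurableSet B)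
    (hBi : ∀ g ∈ G, ∀ x, g x ∈ B ↔ x ∈ B)
    (hL : ∀ x ∈ B, ∀ w, ∑ k, ⟪w, A k x⟫_ℝ ^ 2 ≤ L * ‖w‖ ^ 2)
    (K : ℝ) (hK : K = 4 * L / κ0 + 4 * L / cV + 2 * s)
    (hhalf : 1 / 2 ≤ (mu ρ B).toReal) (f : V κ → ℝ) (hf : ContDiff ℝ 1 f) :
    ∃ c : ℝ, ∫ x in B, (f x - c) ^ 2 ∂(mu ρ) ≤
      U * K * ∫ x in B, ‖fderiv ℝ f x‖ ^ 2 ∂(mu ρ) := by
  have hprob : IsProbabilityMeasure (mu ρ) := ⟨h1⟩
  have hk := h.kpos
  have hc := h.cpos
  have hK0 : 0 < K := by rw [hK]; positivity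
  have hball := ball_null hρ.meas hb
  have hD := hρ.indicator B hBc hBm hBi
  have hres : mu (B.indicator ρ) = (mu ρ).restrict B := mu_indicator ρ B hBm
  have hle : ∀ x, B.indicator ρ x ≤ ρ x := fun x => Set.indicator_le_self' (fun _ _ => hρ.nonneg _) x
  have hbU : Bdd (B.indicator ρ) := by
    obtain ⟨R, hR⟩ := hb
    refine ⟨R, fun x hx => le_antisymm ?_ (hD.nonneg x)⟩
    rw [← hR x hx]
    exact hle x
  have hfinU : mu (B.indicator ρ) univ ≠ ⊤ := by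
    have := (mu_mono ρ (B.indicator ρ) hle univ).trans_eq h1
    exact ne_top_of_le_ne_top ENNReal.one_ne_top this
  have hneU : mu (B.indicator ρ) ≠ 0 := by
    intro h0
    rw [hres] at h0
    have h2 : mu ρ B = 0 := by
      rw [← Measure.restrict_apply_univ, h0]
      simp
    rw [h2] at hhalf
    norm_num at hhalf
  have hLC : LC (B.indicator ρ) := ⟨hD.nonneg, hD.meas, hD.logc, hbU, hfinU, hneU⟩
  obtain ⟨c, hc'⟩ := hUT _ (B.indicator ρ) hLC e h.orth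
    K hK0 (by
      intro θ
      rw [hres, Measure.restrict_apply_univ]
      have h2 : ∫ x in B, ⟪θ, x⟫_ℝ ^ 2 ∂(mu ρ) ≤ ∫ x, ⟪θ, x⟫_ℝ ^ 2 ∂(mu ρ) :=
        setIntegral_le_integral (intg (mu ρ) hball _ (by fun_prop))
          (ae_of_all _ fun x => by positivity)
      have h3 := hmom θ
      have h4 : 2 * s ≤ K := by
        rw [hK]
        have : 0 ≤ 4 * L / κ0 := by positivity
        have : 0 ≤ 4 * L / cV := by positivity
        linarith
      have h5 : s ≤ K * (mu ρ B).toReal := by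
        have h6 : K * (1 / 2) ≤ K * (mu ρ B).toReal := mul_le_mul_of_nonneg_left hhalf hK0.le
        linarith
      have h7 := mul_le_mul_of_nonneg_right h5 (sq_nonneg ‖θ‖)
      have e : K * ‖θ‖ ^ 2 * (mu ρ B).toReal = K * (mu ρ B).toReal * ‖θ‖ ^ 2 := by ring
      rw [e]
      linarith)
    (by
      intro τ g hg
      have hD' := hD.tilt h.inner_fix K hK0 τ
      have hT' : St e K (fun x => B.indicator ρ x * tw e K τ x) := hD.tilt_st K hK0 τ
      have hw0 : ∀ x : V κ, 0 ≤ tw e K τ x := fun x => (Real.exp_pos _).le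
      have hwm : Measurable fun x : V κ => tw e K τ x := (tw_cont e K τ).measurable
      have hw1 : ∀ x : V κ, tw e K τ x ≤ 1 := fun x => by
        unfold tw
        rw [Real.exp_le_one_iff, neg_nonpos]
        positivity
      have hle' : ∀ x, B.indicator ρ x * tw e K τ x ≤ ρ x :=
        fun x => (mul_le_of_le_one_right (hD.nonneg x) (hw1 x)).trans (hle x)
      have hb' : Bdd (fun x => B.indicator ρ x * tw e K τ x) := by
        obtain ⟨R, hR⟩ := hbU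
        exact ⟨R, fun x hx => by simp only [hR x hx, zero_mul]⟩
      have hfin' : mu (fun x => B.indicator ρ x * tw e K τ x) univ ≠ ⊤ := by
        have := (mu_mono ρ _ hle' univ).trans_eq h1
        exact ne_top_of_le_ne_top ENNReal.one_ne_top this
      obtain ⟨c, hc2⟩ := local_poinc h hD' hb' hfin' L hL0
        (fun x hx w => hL x (by
          by_contra hcon
          exact hx (by simp only [Set.indicator_of_notMem hcon, zero_mul])) w) K hK0 hT' g hg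
      rw [integral_mu_mul _ _ _ hD.nonneg hD.meas hw0 hwm,
        integral_mu_mul _ _ _ hD.nonneg hD.meas hw0 hwm] at hc2
      refine ⟨c, hc2.trans (mul_le_mul_of_nonneg_right ?_ ?_)⟩
      · have e1 : 0 ≤ L / κ0 := by positivity
        have e2 : 0 ≤ L / cV := by positivity
        have e3 : 4 * L / κ0 = 4 * (L / κ0) := by ring
        have e4 : 4 * L / cV = 4 * (L / cV) := by ring
        have e5 : L / cV ≤ K := by rw [hK, e3, e4]; linarith
        have e6 : 4 * L / κ0 ≤ K := by rw [hK, e3, e4]; linarith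
        have e7 : max K (L / cV) ≤ K := max_le le_rfl e5
        linarith
      · exact integral_nonneg fun x => mul_nonneg (by positivity) (hw0 x))
    f hf
  rw [hres] at hc'
  exact ⟨c, hc'⟩

/-- second moment of the norm -/
theorem norm_second {κ : Type} [Fintype κ] {ρ : V κ → ℝ} (hρm : Measurable ρ) (hb : Bdd ρ)
    (h1 : mu ρ univ = 1) (s : ℝ)
    (hmom : ∀ θ : V κ, ∫ x, ⟪θ, x⟫_ℝ ^ 2 ∂(mu ρ) ≤ s * ‖θ‖ ^ 2) :
    ∫ x, ‖x‖ ^ 2 ∂(mu ρ) ≤ s * Fintype.card κ := by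
  classical
  have hprob : IsProbabilityMeasure (mu ρ) := ⟨h1⟩
  have hball := ball_null hρm hb
  have e : ∀ x : V κ, ‖x‖ ^ 2 = ∑ p : κ, ⟪EuclideanSpace.single p (1 : ℝ), x⟫_ℝ ^ 2 := by
    intro x
    rw [EuclideanSpace.norm_sq_eq]
    apply Finset.sum_congr rfl
    intro p _
    rw [EuclideanSpace.inner_single_left]
    simp
  simp only [e]
  rw [integral_finsetSum _ fun p _ => intg (mu ρ) hball _ (by fun_prop)]
  calc ∑ p : κ, ∫ x, ⟪EuclideanSpace.single p (1 : ℝ), x⟫_ℝ ^ 2 ∂(mu ρ) ≤ ∑ _p : κ, s := by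
        refine Finset.sum_le_sum fun p _ => ?_
        have h2 := hmom (EuclideanSpace.single p (1 : ℝ))
        have h3 : ‖(EuclideanSpace.single p (1 : ℝ) : V κ)‖ = 1 := by simp
        rwa [h3, one_pow, mul_one] at h2
    _ = s * Fintype.card κ := by simp [mul_comm]

open Classical in
/-- the weighted degree of the vertex `w`: the sum over the ends at `w` of arrows between `w` and
`o` of `(1 + (dim o + l) / dim w) ^ 2` -/
noncomputable def wdeg {B E : Type} [Fintype E] (Q : Qv B E) (l : ℝ) (w : B) : ℝ :=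
  ∑ e, ((if Q.tgt e = w then (1 + (Q.dim (Q.src e) + l) / Q.dim w) ^ 2 else 0) +
    (if Q.src e = w then (1 + (Q.dim (Q.tgt e) + l) / Q.dim w) ^ 2 else 0))

theorem coreQ : ∃ C : ℝ, 0 < C ∧ ∀ {B E : Type} [Fintype B] [Fintype E] [Nonempty E] (Q : Qv B E),
    (∀ v ∈ Q.gauge, 3 ≤ Q.dim v) → (∀ v, 1 ≤ Q.dim v) → ∀ U : ℝ, 1 ≤ U →
    UT (Module.finrank ℝ (FQ Q)) U → ∀ δ : ℝ, 1 ≤ δ →
    (∀ w ∈ Q.gauge, wdeg Q (Real.log (Fintype.card Q.Ix)) w ≤ δ) →
    ∀ ρ : V Q.Ix → ℝ, GD (GQ Q) ρ → Bdd ρ → mu ρ univ = 1 → ∀ s : ℝ, 0 < s →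
    (∀ θ : V Q.Ix, ∫ x, ⟪θ, x⟫_ℝ ^ 2 ∂(mu ρ) ≤ s * ‖θ‖ ^ 2) →
    ∀ f : V Q.Ix → ℝ, ContDiff ℝ 1 f → (∀ x, ‖fderiv ℝ f x‖ ≤ 1) →
    ∫ x, f x ^ 2 ∂(mu ρ) - (∫ x, f x ∂(mu ρ)) ^ 2 ≤ C * (U * δ) * s := by
  obtain ⟨C₄, hC₄, hfourth⟩ := fourth
  refine ⟨9 * (24 * (108 * 360 ^ 2) + 2) + 4 + 2 * Real.sqrt C₄, by positivity, ?_⟩
  intro B E _ _ _ Q h3 hd1 U hU hUT δ hδ hdeg ρ hρ hb h1 s hs hmom f hf hf1
  have hprob : IsProbabilityMeasure (mu ρ) := ⟨h1⟩
  have hball := ball_null hρ.meas hb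
  -- dimension
  obtain ⟨D, hD⟩ : ∃ D : ℝ, D = (Fintype.card Q.Ix : ℝ) := ⟨_, rfl⟩
  have hED : (Fintype.card E : ℝ) ≤ D := by
    rw [hD]
    have hcard : Fintype.card E ≤ Fintype.card Q.Ix :=
      Fintype.card_le_of_injective
        (fun e => (⟨e, (⟨0, hd1 _⟩, ⟨0, hd1 _⟩)⟩ : Q.Ix)) (fun e e' h => by
          have := congrArg Sigma.fst h
          exact this)
    exact_mod_cast hcard
  have hE1 : (1 : ℝ) ≤ Fintype.card E := by exact_mod_cast Fintype.card_pos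
  have hD1 : 1 ≤ D := hE1.trans hED
  have hD0 : 0 < D := by linarith
  obtain ⟨l, hl⟩ : ∃ l : ℝ, l = Real.log D := ⟨_, rfl⟩
  have hl0 : 0 ≤ l := by rw [hl]; exact Real.log_nonneg hD1
  rw [← hD, ← hl] at hdeg
  -- parameters
  obtain ⟨u, hu⟩ : ∃ u : B → B → ℝ, u = fun v o =>
    30 * (10 + (1 + 3 * (Q.dim o : ℝ) + (3 + 3 * l)) / Q.dim v) := ⟨_, rfl⟩
  obtain ⟨R, hR⟩ : ∃ R : B → B → ℝ, R = fun v o => 6 * u v o * Real.sqrt (Q.dim v * s) := ⟨_, rfl⟩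
  have hdim : ∀ v ∈ Q.gauge, (3 : ℝ) ≤ Q.dim v := fun v hv => by exact_mod_cast h3 v hv
  have hut : ∀ v ∈ Q.gauge, ∀ o, 1 + 3 * (Q.dim o : ℝ) + Q.dim v * (10 - u v o / 30) ≤
      -(3 + 3 * l) := by
    intro v hv o
    have h4 := hdim v hv
    have h5 : (Q.dim v : ℝ) ≠ 0 := by linarith
    rw [hu]
    apply le_of_eq
    field_simp
    ring
  have hu0 : ∀ v ∈ Q.gauge, ∀ o, 0 ≤ u v o := by
    intro v hv o
    have h4 := hdim v hv
    rw [hu]
    positivity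
  have hu1 : ∀ v ∈ Q.gauge, ∀ o, u v o ≤ 360 * (1 + (Q.dim o + l) / Q.dim v) := by
    intro v hv o
    have h4 := hdim v hv
    have h5 : (0 : ℝ) < Q.dim v := by linarith
    have h6 : (1 + 3 * (Q.dim o : ℝ) + (3 + 3 * l)) / Q.dim v ≤ 2 + 3 * ((Q.dim o + l) / Q.dim v) := by
      rw [div_le_iff₀ h5]
      have : (2 + 3 * (((Q.dim o : ℝ) + l) / Q.dim v)) * Q.dim v =
          2 * Q.dim v + 3 * (Q.dim o + l) := by
        field_simp
      rw [this]
      linarith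
    have h7 : 0 ≤ ((Q.dim o : ℝ) + l) / Q.dim v := by positivity
    rw [hu]
    show 30 * (10 + (1 + 3 * (Q.dim o : ℝ) + (3 + 3 * l)) / Q.dim v) ≤ _
    linarith
  -- the set
  obtain ⟨A, hA⟩ : ∃ A : Set (V Q.Ix), A = AR Q R := ⟨_, rfl⟩
  have hAm : MeasurableSet A := by rw [hA]; exact (AR_closed Q R).measurableSet
  have hAc : Convex ℝ A := by rw [hA]; exact AR_convex Q R
  have hAi : ∀ g ∈ GQ Q, ∀ x, g x ∈ A ↔ x ∈ A := by rw [hA]; exact AR_inv Q R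
  obtain ⟨L, hL⟩ : ∃ L : ℝ, L = 108 * 360 ^ 2 * δ * s := ⟨_, rfl⟩
  have hL0 : 0 ≤ L := by rw [hL]; positivity
  have hES : ∀ w ∈ Q.gauge, nf Q w ^ 2 * ES Q R w ≤ L := by
    intro w hw
    have h4 := hdim w hw
    have h5 : (0 : ℝ) < Q.dim w := by linarith
    have hnf := nf_sq Q (h3 w hw)
    have hn3 : nf Q w ^ 2 * Q.dim w ≤ 3 := by
      have h6 : (Q.dim w : ℝ) ≤ 3 * (Q.dim w - 2) := by linarith
      have := mul_le_mul_of_nonneg_left h6 (sq_nonneg (nf Q w))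
      linarith [this, (by ring : nf Q w ^ 2 * (3 * ((Q.dim w : ℝ) - 2)) =
        3 * (nf Q w ^ 2 * ((Q.dim w : ℝ) - 2)))]
    have hRo : ∀ o, R w o ^ 2 ≤ 36 * 360 ^ 2 * s * Q.dim w * (1 + (Q.dim o + l) / Q.dim w) ^ 2 := by
      intro o
      have e1 : R w o ^ 2 = 36 * u w o ^ 2 * (Q.dim w * s) := by
        rw [hR]
        show (6 * u w o * Real.sqrt (Q.dim w * s)) ^ 2 = _
        rw [mul_pow, mul_pow, Real.sq_sqrt (by positivity)]
        ring
      have e2 : u w o ^ 2 ≤ (360 * (1 + (Q.dim o + l) / Q.dim w)) ^ 2 :=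
        pow_le_pow_left₀ (hu0 w hw o) (hu1 w hw o) 2
      rw [e1]
      have e3 : 0 ≤ 36 * (Q.dim w * s) := by positivity
      have := mul_le_mul_of_nonneg_left e2 e3
      linarith [this, (by ring : 36 * (Q.dim w * s) * (360 * (1 + (Q.dim o + l) / Q.dim w)) ^ 2 =
        36 * 360 ^ 2 * s * Q.dim w * (1 + (Q.dim o + l) / Q.dim w) ^ 2),
        (by ring : 36 * (Q.dim w * s) * u w o ^ 2 = 36 * u w o ^ 2 * (Q.dim w * s))]
    have hsum : ES Q R w ≤ 36 * 360 ^ 2 * s * Q.dim w * wdeg Q l w := by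
      unfold ES wdeg
      rw [Finset.mul_sum]
      refine Finset.sum_le_sum fun e _ => ?_
      rw [mul_add]
      refine add_le_add ?_ ?_
      · split_ifs
        · exact hRo _
        · rw [mul_zero]
      · split_ifs
        · exact hRo _
        · rw [mul_zero]
    have hw0 : 0 ≤ wdeg Q l w := by
      unfold wdeg
      refine Finset.sum_nonneg fun e _ => add_nonneg ?_ ?_
      · split_ifs
        · positivity
        · exact le_rfl
      · split_ifs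
        · positivity
        · exact le_rfl
    calc nf Q w ^ 2 * ES Q R w ≤ nf Q w ^ 2 * (36 * 360 ^ 2 * s * Q.dim w * wdeg Q l w) :=
          mul_le_mul_of_nonneg_left hsum (sq_nonneg _)
      _ = 36 * 360 ^ 2 * s * wdeg Q l w * (nf Q w ^ 2 * Q.dim w) := by ring
      _ ≤ 36 * 360 ^ 2 * s * wdeg Q l w * 3 := mul_le_mul_of_nonneg_left hn3 (by positivity)
      _ = 108 * 360 ^ 2 * s * wdeg Q l w := by ring
      _ ≤ 108 * 360 ^ 2 * s * δ := mul_le_mul_of_nonneg_left (hdeg w hw) (by positivity)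
      _ = L := by rw [hL]; ring
  have hLA : ∀ x ∈ A, ∀ w, ∑ k, ⟪w, AQ Q k x⟫_ℝ ^ 2 ≤ 2 * L * ‖w‖ ^ 2 := by
    intro x hx w
    rw [hA] at hx
    exact AR_L Q R L hL0 hES x hx w
  -- the tail
  obtain ⟨ε, hε⟩ : ∃ ε : ℝ, ε = 1 / (2 * D) := ⟨_, rfl⟩
  have hε0 : 0 ≤ ε := by rw [hε]; positivity
  have hε2 : ε ≤ 1 / 2 := by
    rw [hε]
    apply div_le_div_of_nonneg_left (by norm_num) (by norm_num)
    linarith
  have hAε : mu ρ Aᶜ ≤ ENNReal.ofReal (ε ^ 2) := by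
    have h2 := AR_tail h3 hρ hb h1 s hs hmom u (3 + 3 * l) hut
    rw [← hR, ← hA] at h2
    refine h2.trans (ENNReal.ofReal_le_ofReal ?_)
    have h5 : Real.exp (-(3 + 3 * l)) ≤ 1 / (8 * D ^ 3) := by
      have e1 : Real.exp (3 + 3 * l) = Real.exp 3 * D ^ 3 := by
        rw [Real.exp_add, hl]
        congr 1
        have : (3 : ℝ) * Real.log D = (3 : ℕ) * Real.log D := by norm_num
        rw [this, Real.exp_nat_mul, Real.exp_log hD0]
      rw [Real.exp_neg, e1, one_div]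
      apply inv_anti₀ (by positivity)
      have h8 := exp3 1
      rw [pow_one] at h8
      have h9 : Real.exp (3 * ((1 : ℕ) : ℝ)) = Real.exp 3 := by norm_num
      rw [h9] at h8
      exact mul_le_mul_of_nonneg_right h8 (by positivity)
    calc 2 * (Fintype.card E : ℝ) * Real.exp (-(3 + 3 * l)) ≤ 2 * D * (1 / (8 * D ^ 3)) := by
          apply mul_le_mul (by linarith) h5 (Real.exp_pos _).le (by positivity)
      _ = ε ^ 2 := by
          rw [hε]
          field_simp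
          norm_num
  have hhalf : 1 / 2 ≤ (mu ρ A).toReal := by
    have h2 : (mu ρ).real Aᶜ ≤ ε ^ 2 := by
      rw [measureReal_def]
      exact ENNReal.toReal_le_of_le_ofReal (sq_nonneg _) hAε
    rw [probReal_compl_eq_one_sub hAm] at h2
    have h3 : ε ^ 2 ≤ (1 / 2) ^ 2 := pow_le_pow_left₀ hε0 hε2 2
    rw [← measureReal_def]
    linarith
  -- the local inequality
  obtain ⟨c, hc⟩ := local_UT hUT (dataQ Q h3) hρ hb h1 s hs hmom (2 * L) (by positivity) A hAc hAm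
    hAi hLA _ rfl hhalf f hf
  have hdf : Continuous fun x => ‖fderiv ℝ f x‖ ^ 2 :=
    ((hf.continuous_fderiv one_ne_zero).norm).pow 2
  have hgrad : ∫ x in A, ‖fderiv ℝ f x‖ ^ 2 ∂(mu ρ) ≤ 1 := by
    calc ∫ x in A, ‖fderiv ℝ f x‖ ^ 2 ∂(mu ρ) ≤ ∫ x, ‖fderiv ℝ f x‖ ^ 2 ∂(mu ρ) :=
          setIntegral_le_integral (intg (mu ρ) hball _ hdf) (ae_of_all _ fun x => by positivity)
      _ ≤ ∫ x, (1:ℝ) ∂(mu ρ) := by
          refine integral_mono (intg (mu ρ) hball _ hdf) (integrable_const _) fun x => ?_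
          exact pow_le_one₀ (norm_nonneg _) (hf1 x)
      _ = 1 := by simp
  obtain ⟨K, hK⟩ : ∃ K : ℝ, K = U * (24 * L + 2 * s) := ⟨_, rfl⟩
  have hK0 : 0 ≤ K := by rw [hK]; positivity
  have hloc : ∫ x in A, (f x - c) ^ 2 ∂(mu ρ) ≤ K := by
    refine hc.trans ?_
    have e1 : U * (4 * (2 * L) / 1 + 4 * (2 * L) / (1 / 2) + 2 * s) = K := by
      rw [hK]
      ring
    rw [e1]
    exact mul_le_of_le_one_right hK0 hgrad
  -- moments
  obtain ⟨M, hM⟩ : ∃ M : ℝ, M = s * D := ⟨_, rfl⟩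
  have hM0 : 0 < M := by rw [hM]; positivity
  have h2M : ∫ x, ‖x‖ ^ 2 ∂(mu ρ) ≤ M := by
    rw [hM, hD]
    exact norm_second hρ.meas hb h1 s hmom
  have hLC : LC ρ := ⟨hρ.nonneg, hρ.meas, hρ.logc, hb, by rw [h1]; exact ENNReal.one_ne_top, by
    intro h0
    rw [h0] at h1
    simp at h1⟩
  have h4Q : ∫ x, ‖x‖ ^ 4 ∂(mu ρ) ≤ (Real.sqrt C₄ * M) ^ 2 := by
    have h2 := hfourth ρ hLC h1 (Real.sqrt M) (Real.sqrt_pos.2 hM0) (by
      rw [Real.sq_sqrt hM0.le]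
      exact h2M)
    refine h2.trans (le_of_eq ?_)
    have h3 : Real.sqrt M ^ 4 = M ^ 2 := by
      have : Real.sqrt M ^ 4 = (Real.sqrt M ^ 2) ^ 2 := by ring
      rw [this, Real.sq_sqrt hM0.le]
    rw [h3, mul_pow, Real.sq_sqrt hC₄.le]
  have hglue := glue0 (mu ρ) hball A hAm f hf hf1 c K M (Real.sqrt C₄ * M) ε hK0 hM0.le
    (by positivity) hε0 hε2 hAε h2M h4Q hloc
  have hMε : M * ε = s / 2 := by
    rw [hM, hε]
    field_simp
  have hUδ : 1 ≤ U * δ := by nlinarith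
  have hsU : s ≤ U * δ * s := le_mul_of_one_le_left hs.le hUδ
  have htot : ∫ x, (f x - c) ^ 2 ∂(mu ρ) ≤
      (9 * (24 * (108 * 360 ^ 2) + 2) + 4 + 2 * Real.sqrt C₄) * (U * δ) * s := by
    have e1 : 9 * K ≤ 9 * (24 * (108 * 360 ^ 2) + 2) * (U * δ) * s := by
      have e4 : U * s ≤ U * δ * s := by
        have : U * 1 ≤ U * δ := mul_le_mul_of_nonneg_left hδ (by linarith)
        exact mul_le_mul_of_nonneg_right (by linarith) hs.le
      rw [hK, hL]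
      linarith [e4, (by ring : 9 * (U * (24 * (108 * 360 ^ 2 * δ * s) + 2 * s)) =
        9 * (24 * (108 * 360 ^ 2)) * (U * δ * s) + 18 * (U * s)),
        (by ring : 9 * (24 * (108 * 360 ^ 2) + 2) * (U * δ) * s =
        9 * (24 * (108 * 360 ^ 2)) * (U * δ * s) + 18 * (U * δ * s))]
    have e2 : 8 * M * ε ^ 2 ≤ 4 * (U * δ) * s := by
      have h5 : 8 * M * ε ^ 2 = 8 * (M * ε) * ε := by ring
      rw [h5, hMε]
      have h6 : 8 * (s / 2) * ε ≤ 8 * (s / 2) * (1 / 2) :=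
        mul_le_mul_of_nonneg_left hε2 (by positivity)
      linarith
    have e3 : 2 * (Real.sqrt C₄ * M) * ε ≤ 2 * Real.sqrt C₄ * (U * δ) * s := by
      have h5 : 2 * (Real.sqrt C₄ * M) * ε = 2 * Real.sqrt C₄ * (M * ε) := by ring
      rw [h5, hMε]
      have h6 : s / 2 ≤ U * δ * s := by linarith
      have := mul_le_mul_of_nonneg_left h6 (show 0 ≤ 2 * Real.sqrt C₄ by positivity)
      linarith [this, (by ring : 2 * Real.sqrt C₄ * (U * δ * s) = 2 * Real.sqrt C₄ * (U * δ) * s)]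
    have e5 : (9 * (24 * (108 * 360 ^ 2) + 2) + 4 + 2 * Real.sqrt C₄) * (U * δ) * s =
        9 * (24 * (108 * 360 ^ 2) + 2) * (U * δ) * s + 4 * (U * δ) * s +
          2 * Real.sqrt C₄ * (U * δ) * s := by ring
    rw [e5]
    linarith
  -- variance
  have hf0 : Continuous f := hf.continuous
  have hi1 : Integrable f (mu ρ) := intg (mu ρ) hball _ hf0
  have hi2 : Integrable (fun x => f x ^ 2) (mu ρ) := intg (mu ρ) hball _ (hf0.pow 2)
  have hexpd : ∫ x, (f x - c) ^ 2 ∂(mu ρ) =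
      ∫ x, f x ^ 2 ∂(mu ρ) - 2 * c * ∫ x, f x ∂(mu ρ) + c ^ 2 := by
    have h2 : ∀ x, (f x - c) ^ 2 = f x ^ 2 - 2 * c * f x + c ^ 2 := fun x => by ring
    simp_rw [h2]
    have h3 : ∫ x, (f x ^ 2 - 2 * c * f x + c ^ 2) ∂(mu ρ) =
        ∫ x, (f x ^ 2 - 2 * c * f x) ∂(mu ρ) + ∫ _, c ^ 2 ∂(mu ρ) :=
      integral_add (hi2.sub (hi1.const_mul (2 * c))) (integrable_const _)
    have h4 : ∫ x, (f x ^ 2 - 2 * c * f x) ∂(mu ρ) =
        ∫ x, f x ^ 2 ∂(mu ρ) - ∫ x, 2 * c * f x ∂(mu ρ) :=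
      integral_sub hi2 (hi1.const_mul (2 * c))
    rw [h3, h4, integral_const_mul]
    simp
  have hsq := sq_nonneg (∫ x, f x ∂(mu ρ) - c)
  rw [hexpd] at htot
  nlinarith

end Pool.Agent.T6.H95.QG
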