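import Pool.Agent.T6.H95.QG.Unt
import Pool.Agent.TH591.TT.Loc

/-!
# Bounds for the Poincare constant of log-concave measures in dimension `n`
-/

set_option autoImplicit false

namespace Pool.Agent.T6.H95.QG

open MeasureTheory Set Matrix
open scoped ENNReal InnerProductSpace
open Pool.Agent.TH591.TT
open Pool.Agent.H212R2.KLS (mu Bdd)
open Pool.Agent.H888R2.KT (LC tw)

/-- `K` is a bound for the Poincare constants of the log-concave probability measures on `ℝ ^ n`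
with covariance at most one: if the covariance matrix has norm at most `s` then
`Var f ≤ K s E ‖∇ f‖²`. -/
def KLSb (n : ℕ) (K : ℝ) : Prop :=
  ∀ ρ : V (Fin n) → ℝ, (∀ x, 0 ≤ ρ x) → Measurable ρ →
    (∀ x y, ∀ t : ℝ, 0 < t → t < 1 → ρ x ^ (1 - t) * ρ y ^ t ≤ ρ ((1 - t) • x + t • y)) →
    ∀ μ : Measure (V (Fin n)), μ = volume.withDensity (fun x => ENNReal.ofReal (ρ x)) →
    IsProbabilityMeasure μ → ∀ s : ℝ, 0 < s →
    (∀ θ : V (Fin n), ProbabilityTheory.evariance (fun x => ⟪θ, x⟫_ℝ) μ ≤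
      ENNReal.ofReal (s * ‖θ‖ ^ 2)) →
    ∀ f : V (Fin n) → ℝ, ContDiff ℝ 1 f → MemLp f 2 μ →
    ENNReal.ofReal (ProbabilityTheory.variance f μ) ≤
      ENNReal.ofReal (K * s) * ∫⁻ x, ENNReal.ofReal (‖fderiv ℝ f x‖ ^ 2) ∂μ

/-- the Gaussian tilt in `q` orthonormal directions can be removed with the constant `U` -/
def UT (q : ℕ) (U : ℝ) : Prop :=
  ∀ (κ : Type) [Fintype κ] (ρ : V κ → ℝ), LC ρ →
    ∀ e : Fin q → V κ, Orthonormal ℝ e → ∀ K : ℝ, 0 < K →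
    (∀ θ : V κ, ∫ x, ⟪θ, x⟫_ℝ ^ 2 ∂(mu ρ) ≤ K * ‖θ‖ ^ 2 * (mu ρ univ).toReal) →
    (∀ (τ : EuclideanSpace ℝ (Fin q)) (f : V κ → ℝ), ContDiff ℝ 1 f →
      ∃ c : ℝ, ∫ x, (f x - c) ^ 2 * tw e K τ x ∂(mu ρ) ≤
        5 * K * ∫ x, ‖fderiv ℝ f x‖ ^ 2 * tw e K τ x ∂(mu ρ)) →
    ∀ f : V κ → ℝ, ContDiff ℝ 1 f →
    ∃ c : ℝ, ∫ x, (f x - c) ^ 2 ∂(mu ρ) ≤ U * K * ∫ x, ‖fderiv ℝ f x‖ ^ 2 ∂(mu ρ)

theorem UT_crude : ∃ C : ℝ, 0 < C ∧ ∀ q : ℕ, UT q (C * (q + 1)) := by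
  obtain ⟨C, hC, h⟩ := Pool.Agent.H888R2.KT.untiltq
  refine ⟨C, hC, fun q κ _ ρ hρ e he K hK hmom hloc f hf => ?_⟩
  refine h ρ hρ e he K hK (fun j => ?_) hloc f hf
  have h2 := hmom (e j)
  rw [he.1 j, one_pow, mul_one] at h2
  exact h2

theorem klsZ {q : ℕ} {C3 : ℝ} (hC3 : 0 < C3) (h : KLSb q C3)
    (Z M : EuclideanSpace ℝ (Fin q) → ℝ)
    (hZ0 : ∀ x, 0 < Z x) (hZc : Continuous Z)
    (hZl : ∀ a b : EuclideanSpace ℝ (Fin q), ∀ t : ℝ, 0 < t → t < 1 →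
        Z a ^ (1 - t) * Z b ^ t ≤ Z ((1 - t) • a + t • b))
    (hZi : Integrable Z) (σ : ℝ) (hσ : 0 < σ)
    (hi2 : ∀ θ : EuclideanSpace ℝ (Fin q), Integrable (fun x => ⟪θ, x⟫_ℝ ^ 2 * Z x))
    (hm : ∀ θ : EuclideanSpace ℝ (Fin q), ∫ x, ⟪θ, x⟫_ℝ ^ 2 * Z x ≤ σ * ‖θ‖ ^ 2 * ∫ x, Z x)
    (hM : ContDiff ℝ 1 M) (hMb : ∃ B, ∀ x, |M x| ≤ B)
    (hMi : Integrable (fun x => ‖fderiv ℝ M x‖ ^ 2 * Z x)) :
    ∃ c : ℝ, ∫ x, (M x - c) ^ 2 * Z x ≤ C3 * σ * ∫ x, ‖fderiv ℝ M x‖ ^ 2 * Z x := by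
  obtain ⟨m, hmdef⟩ : ∃ m : ℝ, m = ∫ x, Z x := ⟨_, rfl⟩
  have hm0 : 0 < m := by
    rw [hmdef, integral_pos_iff_support_of_nonneg (fun x => (hZ0 x).le) hZi]
    have : Function.support Z = univ := by
      ext x
      simp [(hZ0 x).ne']
    rw [this]
    exact Measure.measure_univ_pos.2 (NeZero.ne _)
  have hmi : 0 < m⁻¹ := inv_pos.2 hm0
  obtain ⟨ρ, hρ⟩ : ∃ ρ : V (Fin q) → ℝ, ρ = fun x => m⁻¹ * Z x := ⟨_, rfl⟩
  have hρ0 : ∀ x, 0 ≤ ρ x := fun x => by rw [hρ]; exact (mul_pos hmi (hZ0 x)).le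
  have hρm : Measurable ρ := by rw [hρ]; exact (hZc.measurable).const_mul _
  have hρl : ∀ x y, ∀ t : ℝ, 0 < t → t < 1 →
      ρ x ^ (1 - t) * ρ y ^ t ≤ ρ ((1 - t) • x + t • y) := by
    intro x y t ht0 ht1
    rw [hρ]
    show (m⁻¹ * Z x) ^ (1 - t) * (m⁻¹ * Z y) ^ t ≤ m⁻¹ * Z ((1 - t) • x + t • y)
    rw [Real.mul_rpow hmi.le (hZ0 x).le, Real.mul_rpow hmi.le (hZ0 y).le]
    have h2 : m⁻¹ ^ (1 - t) * m⁻¹ ^ t = m⁻¹ := by
      rw [← Real.rpow_add hmi]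
      simp
    calc m⁻¹ ^ (1 - t) * Z x ^ (1 - t) * (m⁻¹ ^ t * Z y ^ t)
        = (m⁻¹ ^ (1 - t) * m⁻¹ ^ t) * (Z x ^ (1 - t) * Z y ^ t) := by ring
      _ = m⁻¹ * (Z x ^ (1 - t) * Z y ^ t) := by rw [h2]
      _ ≤ _ := mul_le_mul_of_nonneg_left (hZl x y t ht0 ht1) hmi.le
  have hint : ∀ g : V (Fin q) → ℝ, ∫ x, g x ∂(mu ρ) = m⁻¹ * ∫ x, g x * Z x := by
    intro g
    rw [mu, integral_withDensity_eq_integral_toReal_smul hρm.ennreal_ofReal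
      (ae_of_all _ fun x => ENNReal.ofReal_lt_top), ← integral_const_mul]
    refine integral_congr_ae (ae_of_all _ fun x => ?_)
    simp only [ENNReal.toReal_ofReal (hρ0 x), smul_eq_mul]
    rw [hρ]
    ring
  have hintg : ∀ g : V (Fin q) → ℝ, Integrable (fun x => g x * Z x) → Integrable g (mu ρ) := by
    intro g hg
    rw [mu, integrable_withDensity_iff_integrable_smul' hρm.ennreal_ofReal
      (ae_of_all _ fun x => ENNReal.ofReal_lt_top)]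
    refine (hg.const_mul m⁻¹).congr (ae_of_all _ fun x => ?_)
    simp only [ENNReal.toReal_ofReal (hρ0 x), smul_eq_mul]
    rw [hρ]
    ring
  have hprob : IsProbabilityMeasure (mu ρ) := by
    refine ⟨?_⟩
    rw [mu, withDensity_apply _ MeasurableSet.univ, Measure.restrict_univ,
      ← ofReal_integral_eq_lintegral_ofReal (by rw [hρ]; exact hZi.const_mul _)
        (ae_of_all _ hρ0), hρ, integral_const_mul, ← hmdef, inv_mul_cancel₀ hm0.ne',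
      ENNReal.ofReal_one]
  have hmean : ∀ θ : V (Fin q), ProbabilityTheory.evariance (fun x => ⟪θ, x⟫_ℝ) (mu ρ) ≤
      ENNReal.ofReal (σ * ‖θ‖ ^ 2) := by
    intro θ
    have hae : AEStronglyMeasurable (fun x : V (Fin q) => ⟪θ, x⟫_ℝ) (mu ρ) :=
      (by fun_prop : Continuous fun x : V (Fin q) => ⟪θ, x⟫_ℝ).aestronglyMeasurable
    rw [ProbabilityTheory.evariance_def' hae]
    refine tsub_le_self.trans ?_
    have h2 : ∫⁻ x, ‖⟪θ, x⟫_ℝ‖ₑ ^ 2 ∂(mu ρ) = ∫⁻ x, ENNReal.ofReal (⟪θ, x⟫_ℝ ^ 2) ∂(mu ρ) := by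
      refine lintegral_congr fun x => ?_
      rw [← ofReal_norm, ← ENNReal.ofReal_pow (norm_nonneg _), Real.norm_eq_abs, sq_abs]
    rw [h2, ← ofReal_integral_eq_lintegral_ofReal (hintg _ (hi2 θ))
      (ae_of_all _ fun x => sq_nonneg _)]
    apply ENNReal.ofReal_le_ofReal
    rw [hint]
    have h3 := mul_le_mul_of_nonneg_left (hm θ) hmi.le
    refine h3.trans (le_of_eq ?_)
    rw [← hmdef]
    field_simp
  obtain ⟨B, hB⟩ := hMb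
  have hML : MemLp M 2 (mu ρ) :=
    MemLp.of_bound hM.continuous.aestronglyMeasurable B (ae_of_all _ fun x => by
      rw [Real.norm_eq_abs]; exact hB x)
  have key := h ρ hρ0 hρm hρl (mu ρ) rfl hprob σ hσ hmean M hM hML
  rw [← ofReal_integral_eq_lintegral_ofReal (hintg _ hMi) (ae_of_all _ fun x => sq_nonneg _),
    ← ENNReal.ofReal_mul (by positivity), ENNReal.ofReal_le_ofReal_iff (by positivity),
    ProbabilityTheory.variance_eq_integral hM.continuous.measurable.aemeasurable] at key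
  obtain ⟨c, hc⟩ : ∃ c : ℝ, c = ∫ x, M x ∂(mu ρ) := ⟨_, rfl⟩
  rw [← hc, hint, hint] at key
  refine ⟨c, ?_⟩
  have h5 := mul_le_mul_of_nonneg_left key hm0.le
  have e1 : m * (m⁻¹ * ∫ x, (M x - c) ^ 2 * Z x) = ∫ x, (M x - c) ^ 2 * Z x := by
    field_simp
  have e2 : m * (C3 * σ * (m⁻¹ * ∫ x, ‖fderiv ℝ M x‖ ^ 2 * Z x)) =
      C3 * σ * ∫ x, ‖fderiv ℝ M x‖ ^ 2 * Z x := by
    field_simp
  rw [e2] at h5
  rw [← e1]
  exact h5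

theorem UT_of_KLSb {q : ℕ} {C3 : ℝ} (hC3 : 0 < C3) (h : KLSb q C3) : UT q (5 + 50 * C3) := by
  intro κ _ ρ hρ e he K hK hmom hloc f hf
  have : NeZero (mu ρ) := ⟨hρ.ne⟩
  have : IsFiniteMeasure (mu ρ) := ⟨lt_top_iff_ne_top.2 hρ.fin⟩
  exact mainK C3 hC3 (fun Z M h1 h2 h3 h4 σ hσ h5 h6 h7 h8 h9 =>
    klsZ hC3 h Z M h1 h2 h3 h4 σ hσ h5 h6 h7 h8 h9) (mu ρ) (ball_null hρ.meas hρ.bdd) e he K hK
    hmom
    (fun a b t ht0 ht1 => Pool.Agent.H888R2.KT.tw_lc ρ hρ.nonneg hρ.meas hρ.logc hρ.fin e K hK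
      a b t ht0 ht1) hloc f hf

end Pool.Agent.T6.H95.QG
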