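import Pool.Agent.T6.H95.QG.Cas
import Pool.Agent.T6.H95.QG.Tail

/-!
# The set where the operator norms are small
-/

set_option autoImplicit false

set_option linter.unusedSectionVars false

namespace Pool.Agent.T6.H95.QG

open MeasureTheory Set Matrix
open scoped ENNReal InnerProductSpace
open Pool.Agent.TH591.TT
open Pool.Agent.H888R2.KC (KI Km)
open Pool.Agent.H212R2.KLS (mu Bdd)

section cs

variable {a b : Type} [Fintype a] [Fintype b]

/-- Cauchy-Schwarz inequality for a sum of matrices -/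
theorem hs_cs {ι : Type} [Fintype ι] (T : ι → Matrix a b ℝ) (α β : ι → ℝ) (hα : ∀ i, 0 ≤ α i)
    (hβ : ∀ i, 0 ≤ β i) (h : ∀ i, hs (T i) (T i) ≤ α i * β i) :
    hs (∑ i, T i) (∑ i, T i) ≤ (∑ i, α i) * ∑ i, β i := by
  have h0 : ∀ i, α i = 0 → ∀ j k, T i j k = 0 := by
    intro i hi j k
    have h1 := h i
    rw [hi, zero_mul] at h1
    have h2 : T i j k * T i j k ≤ hs (T i) (T i) := by
      unfold hs
      have e1 := Finset.single_le_sum (f := fun k => T i j k * T i j k)
        (fun k _ => mul_self_nonneg _) (Finset.mem_univ k)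
      have e2 := Finset.single_le_sum (f := fun j => ∑ k, T i j k * T i j k)
        (fun j _ => Finset.sum_nonneg fun k _ => mul_self_nonneg _) (Finset.mem_univ j)
      exact e1.trans e2
    have h3 : T i j k * T i j k = 0 := le_antisymm (h2.trans h1) (mul_self_nonneg _)
    exact mul_self_eq_zero.1 h3
  have key : ∀ j k, ((∑ i, T i) j k) * ((∑ i, T i) j k) ≤
      (∑ i, α i) * ∑ i, T i j k ^ 2 / α i := by
    intro j k
    rw [← sq, Matrix.sum_apply]
    refine Finset.sum_sq_le_sum_mul_sum_of_sq_eq_mul _ (fun i _ => hα i)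
      (fun i _ => div_nonneg (sq_nonneg _) (hα i)) (fun i _ => ?_)
    by_cases hi : α i = 0
    · rw [h0 i hi j k, hi]
      simp
    · field_simp
  have h2 : hs (∑ i, T i) (∑ i, T i) ≤ ∑ j, ∑ k, (∑ i, α i) * ∑ i, T i j k ^ 2 / α i :=
    Finset.sum_le_sum fun j _ => Finset.sum_le_sum fun k _ => key j k
  refine h2.trans ?_
  simp only [← Finset.mul_sum]
  refine mul_le_mul_of_nonneg_left ?_ (Finset.sum_nonneg fun i _ => hα i)
  have h3 : ∑ j, ∑ k, ∑ i, T i j k ^ 2 / α i = ∑ i, hs (T i) (T i) / α i := by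
    simp only [Finset.sum_comm (s := (Finset.univ : Finset b)) (t := (Finset.univ : Finset ι))]
    rw [Finset.sum_comm]
    refine Finset.sum_congr rfl fun i _ => ?_
    unfold hs
    rw [Finset.sum_div]
    refine Finset.sum_congr rfl fun j _ => ?_
    rw [Finset.sum_div]
    refine Finset.sum_congr rfl fun k _ => ?_
    rw [sq]
  rw [h3]
  refine Finset.sum_le_sum fun i _ => ?_
  rcases (hα i).eq_or_lt with h4 | h4
  · rw [← h4, div_zero]
    exact hβ i
  · rw [div_le_iff₀ h4, mul_comm]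
    exact h i

end cs

section lb

variable {B E : Type} [Fintype E] [Fintype B] (Q : Qv B E)

/-- all operator norms are bounded: by `R v o` for an arrow between a gauge vertex `v` and `o` -/
def AR (R : B → B → ℝ) : Set (V Q.Ix) :=
  {x | ∀ e, (Q.tgt e ∈ Q.gauge → ‖tm (mat Q e x)‖ ≤ R (Q.tgt e) (Q.src e)) ∧
    (Q.src e ∈ Q.gauge → ‖tm (mat Q e x)‖ ≤ R (Q.src e) (Q.tgt e))}

variable (R : B → B → ℝ)

theorem AR_closed : IsClosed (AR Q R) := by
  have h1 : ∀ e, Continuous fun x : V Q.Ix => ‖tm (mat Q e x)‖ := fun e =>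
    ((tm ∘ₗ mat Q e).continuous_of_finiteDimensional).norm
  have h3 : AR Q R = ⋂ e, ((⋂ _ : Q.tgt e ∈ Q.gauge, {x | ‖tm (mat Q e x)‖ ≤
      R (Q.tgt e) (Q.src e)}) ∩ ⋂ _ : Q.src e ∈ Q.gauge, {x | ‖tm (mat Q e x)‖ ≤
      R (Q.src e) (Q.tgt e)}) := by
    ext x
    simp [AR]
  rw [h3]
  exact isClosed_iInter fun e => (isClosed_iInter fun _ => isClosed_le (h1 e) continuous_const).inter
    (isClosed_iInter fun _ => isClosed_le (h1 e) continuous_const)

theorem AR_convex : Convex ℝ (AR Q R) := by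
  have key : ∀ (e : E) (x y : V Q.Ix) (s t r : ℝ), 0 ≤ s → 0 ≤ t → s + t = 1 →
      ‖tm (mat Q e x)‖ ≤ r → ‖tm (mat Q e y)‖ ≤ r → ‖tm (mat Q e (s • x + t • y))‖ ≤ r := by
    intro e x y s t r hs ht hst hx hy
    rw [map_add, map_smul, map_smul, map_add, map_smul, map_smul]
    calc ‖s • tm (mat Q e x) + t • tm (mat Q e y)‖ ≤
          ‖s • tm (mat Q e x)‖ + ‖t • tm (mat Q e y)‖ := norm_add_le _ _
      _ = s * ‖tm (mat Q e x)‖ + t * ‖tm (mat Q e y)‖ := by
          rw [norm_smul, norm_smul, Real.norm_of_nonneg hs, Real.norm_of_nonneg ht]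
      _ ≤ s * r + t * r := add_le_add (mul_le_mul_of_nonneg_left hx hs)
          (mul_le_mul_of_nonneg_left hy ht)
      _ = r := by rw [← add_mul, hst, one_mul]
  intro x hx y hy s t hs ht hst e
  exact ⟨fun h => key e x y s t _ hs ht hst ((hx e).1 h) ((hy e).1 h),
    fun h => key e x y s t _ hs ht hst ((hx e).2 h) ((hy e).2 h)⟩

theorem norm_mat_RQ {g : Q.Fam} (hg : IsG Q g) (x : V Q.Ix) (e : E) :
    ‖tm (mat Q e (RQ Q g x))‖ ≤ ‖tm (mat Q e x)‖ := by
  rw [mat_RQ]
  refine (norm_right _ ?_ _).trans (norm_left _ (orth2 (hg.orth _)) _)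
  rw [Matrix.transpose_transpose]
  exact orth1 (hg.orth _)

theorem AR_inv : ∀ f ∈ GQ Q, ∀ x, f x ∈ AR Q R ↔ x ∈ AR Q R := by
  rintro f ⟨g, hg, hf⟩ x
  have h1 : ∀ (g : Q.Fam), IsG Q g → ∀ x, x ∈ AR Q R → RQ Q g x ∈ AR Q R := fun g hg x hx e =>
    ⟨fun h => (norm_mat_RQ Q hg x e).trans ((hx e).1 h),
      fun h => (norm_mat_RQ Q hg x e).trans ((hx e).2 h)⟩
  rw [hf]
  refine ⟨fun h => ?_, fun h => h1 g hg x h⟩
  have h2 := h1 _ hg.tp _ h
  rw [RQ_RQ] at h2
  have : (fun v => (g v)ᵀ * g v) = fun v => (1 : Matrix (Fin (Q.dim v)) (Fin (Q.dim v)) ℝ) := by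
    funext v
    exact orth2 (hg.orth v)
  rwa [this, RQ_one] at h2

theorem sg_hs (w a : B) (M : Matrix (Fin (Q.dim w)) (Fin (Q.dim w)) ℝ)
    (Z : Matrix (Fin (Q.dim a)) (Fin (Q.dim a)) ℝ) :
    hs (sg Q w M a) Z = hs M (sg Q a Z w) := by
  by_cases h : a = w
  · subst h
    rw [sg_same, sg_same]
  · rw [sg_ne Q h, sg_ne Q (Ne.symm h)]
    simp [hs]

/-- the momentum of the arrow `e` at the vertex `w` -/
noncomputable def TE (x y : V Q.Ix) (w : B) : E ⊕ E → Matrix (Fin (Q.dim w)) (Fin (Q.dim w)) ℝ :=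
  Sum.elim (fun e => sg Q (Q.tgt e) (mat Q e y * (mat Q e x)ᵀ) w)
    (fun e => -sg Q (Q.src e) ((mat Q e x)ᵀ * mat Q e y) w)

theorem inner_AQ (x y : V Q.Ix) (k : Σ w : Q.gauge, KI (Q.dim w)) :
    ⟪y, AQ Q k x⟫_ℝ = nf Q k.1 * hs (Km ℝ k.2) (∑ i, TE Q x y k.1 i) := by
  rw [hs_sum_right, Fintype.sum_sum_type, innerQ, ← Finset.sum_add_distrib, Finset.mul_sum]
  refine Finset.sum_congr rfl fun e => fun _ => ?_
  unfold AQ TE
  rw [mat_DQ, hs_sub_right]
  simp only [Sum.elim_inl, Sum.elim_inr]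
  have e1 : hs (mat Q e y) (sg Q k.1 (nf Q k.1 • Km ℝ k.2) (Q.tgt e) * mat Q e x) =
      nf Q k.1 * hs (Km ℝ k.2) (sg Q (Q.tgt e) (mat Q e y * (mat Q e x)ᵀ) k.1) := by
    rw [hs_comm, hs_mul_right, sg_hs, hs_comm, hs_smul_right, hs_comm]
  have e2 : hs (mat Q e y) (mat Q e x * sg Q k.1 (nf Q k.1 • Km ℝ k.2) (Q.src e)) =
      nf Q k.1 * hs (Km ℝ k.2) (sg Q (Q.src e) ((mat Q e x)ᵀ * mat Q e y) k.1) := by
    rw [hs_comm, hs_mul_left, hs_comm]
    have e3 : hs (sg Q k.1 (nf Q k.1 • Km ℝ k.2) (Q.src e)) ((mat Q e x)ᵀ * mat Q e y) =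
      nf Q k.1 * hs (Km ℝ k.2) (sg Q (Q.src e) ((mat Q e x)ᵀ * mat Q e y) k.1) := by
      rw [sg_hs, hs_comm, hs_smul_right, hs_comm]
    rw [← e3, hs_comm]
  rw [e1, e2, hs_neg_right]
  ring

open Classical in
/-- the sum of the squares of the bounds over the ends of arrows at `w` -/
noncomputable def ES (w : B) : ℝ :=
  ∑ e, ((if Q.tgt e = w then R w (Q.src e) ^ 2 else 0) +
    (if Q.src e = w then R w (Q.tgt e) ^ 2 else 0))

theorem hs_sg_le (a w : B) (Z : Matrix (Fin (Q.dim a)) (Fin (Q.dim a)) ℝ) [DecidableEq B] :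
    hs (sg Q a Z w) (sg Q a Z w) = if a = w then hs Z Z else 0 := by
  by_cases h : a = w
  · subst h
    rw [sg_same, if_pos rfl]
  · rw [sg_ne Q (Ne.symm h), if_neg h]
    simp [hs]

theorem AR_L (L : ℝ) (hL0 : 0 ≤ L) (hL : ∀ w ∈ Q.gauge, nf Q w ^ 2 * ES Q R w ≤ L) (x : V Q.Ix)
    (hx : x ∈ AR Q R) (y : V Q.Ix) : ∑ k, ⟪y, AQ Q k x⟫_ℝ ^ 2 ≤ 2 * L * ‖y‖ ^ 2 := by
  classical
  have h1 : ∀ w : Q.gauge, ∑ k : KI (Q.dim w), ⟪y, AQ Q ⟨w, k⟩ x⟫_ℝ ^ 2 ≤
      L * ∑ e, ((if Q.tgt e = w then hs (mat Q e y) (mat Q e y) else 0) +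
        (if Q.src e = w then hs (mat Q e y) (mat Q e y) else 0)) := by
    intro w
    have e1 : ∀ k : KI (Q.dim w), ⟪y, AQ Q ⟨w, k⟩ x⟫_ℝ ^ 2 =
        nf Q w ^ 2 * hs (Km ℝ k) (∑ i, TE Q x y w i) ^ 2 := by
      intro k
      rw [inner_AQ, mul_pow]
    rw [Finset.sum_congr rfl fun k _ => e1 k, ← Finset.mul_sum]
    have h2 := parseval_le (∑ i, TE Q x y w i)
    have h3 := hs_cs (TE Q x y w)
      (Sum.elim (fun e => if Q.tgt e = w then R w (Q.src e) ^ 2 else 0)
        (fun e => if Q.src e = w then R w (Q.tgt e) ^ 2 else 0))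
      (Sum.elim (fun e => if Q.tgt e = w then hs (mat Q e y) (mat Q e y) else 0)
        (fun e => if Q.src e = w then hs (mat Q e y) (mat Q e y) else 0))
      (by
        rintro (e | e)
        · simp only [Sum.elim_inl]
          split_ifs
          · positivity
          · exact le_rfl
        · simp only [Sum.elim_inr]
          split_ifs
          · positivity
          · exact le_rfl)
      (by
        rintro (e | e)
        · simp only [Sum.elim_inl]
          split_ifs
          · exact hs_nonneg _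
          · exact le_rfl
        · simp only [Sum.elim_inr]
          split_ifs
          · exact hs_nonneg _
          · exact le_rfl)
      (by
        rintro (e | e)
        · unfold TE
          simp only [Sum.elim_inl]
          rw [hs_sg_le]
          split_ifs with h
          · have hg : Q.tgt e ∈ Q.gauge := h ▸ w.2
            have e2 : hs (mat Q e y * (mat Q e x)ᵀ) (mat Q e y * (mat Q e x)ᵀ) =
                hs (mat Q e x * (mat Q e y)ᵀ) (mat Q e x * (mat Q e y)ᵀ) := by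
              rw [← hs_tp, Matrix.transpose_mul, Matrix.transpose_transpose]
            rw [e2]
            refine (hs_mul_le _ _).trans ?_
            rw [hs_tp]
            refine mul_le_mul_of_nonneg_right (pow_le_pow_left₀ (norm_nonneg _) ?_ 2) (hs_nonneg _)
            have e5 : R w (Q.src e) = R (Q.tgt e) (Q.src e) :=
              congrArg (fun v => R v (Q.src e)) h.symm
            rw [e5]
            exact (hx e).1 hg
          · rw [mul_zero]
        · unfold TE
          simp only [Sum.elim_inr]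
          rw [hs_neg_neg, hs_sg_le]
          split_ifs with h
          · have hg : Q.src e ∈ Q.gauge := h ▸ w.2
            refine (hs_mul_le _ _).trans ?_
            refine mul_le_mul_of_nonneg_right
              (pow_le_pow_left₀ (norm_nonneg _) ((norm_tp _).trans ?_) 2) (hs_nonneg _)
            have e5 : R w (Q.tgt e) = R (Q.src e) (Q.tgt e) :=
              congrArg (fun v => R v (Q.tgt e)) h.symm
            rw [e5]
            exact (hx e).2 hg
          · rw [mul_zero])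
    have hsum : ∀ f g : E → ℝ, ∑ i, Sum.elim f g i = ∑ e, (f e + g e) := fun f g => by
      rw [Fintype.sum_sum_type, Finset.sum_add_distrib]
      rfl
    rw [hsum, hsum] at h3
    have h4 := hL w w.2
    unfold ES at h4
    obtain ⟨S, hS⟩ : ∃ S : ℝ, S = ∑ e, ((if Q.tgt e = w then hs (mat Q e y) (mat Q e y) else 0) +
        (if Q.src e = w then hs (mat Q e y) (mat Q e y) else 0)) := ⟨_, rfl⟩
    rw [← hS] at h3 ⊢
    have hS0 : 0 ≤ S := by
      rw [hS]
      refine Finset.sum_nonneg fun e _ => add_nonneg ?_ ?_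
      · split_ifs
        · exact hs_nonneg _
        · exact le_rfl
      · split_ifs
        · exact hs_nonneg _
        · exact le_rfl
    calc nf Q w ^ 2 * ∑ k : KI (Q.dim w), hs (Km ℝ k) (∑ i, TE Q x y w i) ^ 2 ≤
          nf Q w ^ 2 * ((∑ e, ((if Q.tgt e = w then R w (Q.src e) ^ 2 else 0) +
            (if Q.src e = w then R w (Q.tgt e) ^ 2 else 0))) * S) :=
          mul_le_mul_of_nonneg_left (h2.trans h3) (sq_nonneg _)
      _ = (nf Q w ^ 2 * (∑ e, ((if Q.tgt e = w then R w (Q.src e) ^ 2 else 0) +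
            (if Q.src e = w then R w (Q.tgt e) ^ 2 else 0)))) * S := by ring
      _ ≤ L * S := mul_le_mul_of_nonneg_right h4 hS0
  rw [Fintype.sum_sigma]
  refine (Finset.sum_le_sum fun w _ => h1 w).trans ?_
  rw [← Finset.mul_sum]
  have h5 : ∑ w : Q.gauge, ∑ e, ((if Q.tgt e = w then hs (mat Q e y) (mat Q e y) else 0) +
      (if Q.src e = w then hs (mat Q e y) (mat Q e y) else 0)) ≤ 2 * ‖y‖ ^ 2 := by
    rw [Finset.sum_comm, normQ, Finset.mul_sum]
    refine Finset.sum_le_sum fun e _ => ?_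
    rw [Finset.sum_add_distrib]
    have h6 : ∀ a : B, ∑ w : Q.gauge, (if a = w then hs (mat Q e y) (mat Q e y) else 0) ≤
        hs (mat Q e y) (mat Q e y) := by
      intro a
      by_cases ha : a ∈ Q.gauge
      · rw [Finset.sum_eq_single (⟨a, ha⟩ : Q.gauge)]
        · rw [if_pos rfl]
        · intro w _ hw
          rw [if_neg]
          intro h
          exact hw (Subtype.ext h.symm)
        · intro h
          exact absurd (Finset.mem_univ _) h
      · rw [Finset.sum_eq_zero]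
        · exact hs_nonneg _
        · intro w _
          rw [if_neg]
          intro h
          exact ha (h ▸ w.2)
    have h7 := h6 (Q.tgt e)
    have h8 := h6 (Q.src e)
    linarith
  have := mul_le_mul_of_nonneg_left h5 hL0
  linarith

end lb

end Pool.Agent.T6.H95.QG
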