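import Pool.Agent.T6.H95.QG.Rep

/-!
# The Lie algebra of the gauge group
-/

set_option autoImplicit false

set_option linter.unusedSectionVars false

namespace Pool.Agent.T6.H95.QG

open MeasureTheory Set Matrix
open scoped ENNReal InnerProductSpace
open Pool.Agent.TH591.TT
open Pool.Agent.H888R2.KC (KI Km)

theorem PJ_id (N : ℕ) : KS.PJ (LinearMap.id : Matrix (Fin N) (Fin N) ℝ →ₗ[ℝ] _) where
  idem _ := rfl
  sym _ _ := rfl
  skew _ h := h
  br _ _ _ _ := rfl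

theorem soK (N : ℕ) : ∃ c : KI N → KI N → KI N → ℝ, (∀ i j k, c j i k = - c i j k) ∧
    (∀ i j k, c i k j = - c i j k) ∧
    (∀ i j, Km ℝ i * Km ℝ j - Km ℝ j * Km ℝ i = ∑ k, c i j k • Km ℝ k) ∧
    (∀ k : KI N, ∑ l, (∑ i, ∑ j, c i j k * c i j l) • Km ℝ l = ((N : ℝ) - 2) • Km ℝ k) := by
  obtain ⟨c, h1, h2, h3, h4⟩ := (PJ_id N).struc (((N : ℝ) - 1) / 2) (-(1 / 2)) (by
    have h := sumKK (N := N)
    show ∑ k : KI N, Km ℝ k * Km ℝ k = _
    rw [h]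
    congr 1
    ring) (by
    intro l
    have h := sumKMK (Km ℝ l)
    show ∑ k : KI N, Km ℝ k * Km ℝ l * Km ℝ k = (-(1 / 2) : ℝ) • Km ℝ l
    rw [h, Km_tp, Km_trace, zero_smul, sub_zero, smul_neg, neg_smul])
  refine ⟨c, h1, h2, h3, fun k => ?_⟩
  have h5 := h4 k
  have e : 2 * (((N : ℝ) - 1) / 2) + 2 * (-(1 / 2)) = (N : ℝ) - 2 := by ring
  rw [e] at h5
  exact h5

section sum

variable {W : Type} [Fintype W] {K : W → Type} [∀ w, Fintype (K w)]

open Classical in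
/-- structure constants of a direct sum -/
noncomputable def CC (c : ∀ w, K w → K w → K w → ℝ) (x y z : Σ w, K w) : ℝ :=
  if h : y.1 = x.1 ∧ z.1 = x.1 then c x.1 x.2 (h.1 ▸ y.2) (h.2 ▸ z.2) else 0

theorem CC_same (c : ∀ w, K w → K w → K w → ℝ) (w : W) (i j k : K w) :
    CC c ⟨w, i⟩ ⟨w, j⟩ ⟨w, k⟩ = c w i j k := by
  unfold CC
  rw [dif_pos ⟨rfl, rfl⟩]

theorem CC_ne (c : ∀ w, K w → K w → K w → ℝ) (x y z : Σ w, K w)
    (h : ¬ (y.1 = x.1 ∧ z.1 = x.1)) : CC c x y z = 0 := by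
  unfold CC
  rw [dif_neg h]

theorem sum_CC {M : Type*} [AddCommMonoid M] (w : W) (f : (Σ w, K w) → M)
    (h : ∀ x : Σ w, K w, x.1 ≠ w → f x = 0) : ∑ x, f x = ∑ i, f ⟨w, i⟩ := by
  classical
  rw [Fintype.sum_sigma, Finset.sum_eq_single w]
  · intro w' _ hw
    exact Finset.sum_eq_zero fun i _ => h _ hw
  · intro hw
    exact absurd (Finset.mem_univ w) hw

theorem sum_struc {X : Type} [AddCommGroup X] [Module ℝ X] (A : (Σ w, K w) → (X →ₗ[ℝ] X)) (κ0 : ℝ)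
    (c : ∀ w, K w → K w → K w → ℝ) (h1 : ∀ w i j k, c w j i k = - c w i j k)
    (h2 : ∀ w i j k, c w i k j = - c w i j k)
    (h3 : ∀ w i j x, A ⟨w, i⟩ (A ⟨w, j⟩ x) - A ⟨w, j⟩ (A ⟨w, i⟩ x) = ∑ k, c w i j k • A ⟨w, k⟩ x)
    (h3' : ∀ w w', w ≠ w' → ∀ i j x, A ⟨w, i⟩ (A ⟨w', j⟩ x) - A ⟨w', j⟩ (A ⟨w, i⟩ x) = 0)
    (h4 : ∀ w k x, ∑ l, (∑ i, ∑ j, c w i j k * c w i j l) • A ⟨w, l⟩ x = κ0 • A ⟨w, k⟩ x) :
    ∃ C : (Σ w, K w) → (Σ w, K w) → (Σ w, K w) → ℝ, (∀ i j k, C j i k = - C i j k) ∧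
    (∀ i j k, C i k j = - C i j k) ∧
    (∀ i j x, A i (A j x) - A j (A i x) = ∑ k, C i j k • A k x) ∧
    (∀ k x, ∑ l, (∑ i, ∑ j, C i j k * C i j l) • A l x = κ0 • A k x) := by
  classical
  refine ⟨CC c, ?_, ?_, ?_, ?_⟩
  · rintro ⟨w, i⟩ ⟨w', j⟩ ⟨w'', k⟩
    by_cases h : w' = w ∧ w'' = w
    · obtain ⟨rfl, rfl⟩ := h
      rw [CC_same, CC_same, h1]
    · rw [CC_ne c ⟨w, i⟩ _ _ h, CC_ne c ⟨w', j⟩, neg_zero]
      rintro ⟨e1, e2⟩
      dsimp only at e1 e2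
      exact h ⟨e1.symm, e2.trans e1.symm⟩
  · rintro ⟨w, i⟩ ⟨w', j⟩ ⟨w'', k⟩
    by_cases h : w' = w ∧ w'' = w
    · obtain ⟨rfl, rfl⟩ := h
      rw [CC_same, CC_same, h2]
    · rw [CC_ne c ⟨w, i⟩ ⟨w'', k⟩ ⟨w', j⟩ (fun h' => h ⟨h'.2, h'.1⟩),
        CC_ne c ⟨w, i⟩ ⟨w', j⟩ ⟨w'', k⟩ h, neg_zero]
  · rintro ⟨w, i⟩ ⟨w', j⟩ x
    by_cases hw : w' = w
    · subst hw
      rw [h3, sum_CC w']
      · simp only [CC_same]
      · intro z hz
        rw [CC_ne c _ _ _ (fun h => hz h.2), zero_smul]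
    · rw [h3' w w' (Ne.symm hw), Finset.sum_eq_zero]
      intro z _
      rw [CC_ne c _ _ _ (fun h => hw h.1), zero_smul]
  · rintro ⟨w, k⟩ x
    rw [← h4 w k x, sum_CC w]
    · refine Finset.sum_congr rfl fun l _ => ?_
      congr 1
      rw [sum_CC w]
      · refine Finset.sum_congr rfl fun i _ => ?_
        rw [sum_CC w]
        · simp only [CC_same]
        · intro y hy
          rw [CC_ne c _ _ _ (fun h => hy h.1), zero_mul]
      · intro y hy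
        refine Finset.sum_eq_zero fun z _ => ?_
        rw [CC_ne c _ _ _ (fun h => hy h.2.symm), zero_mul]
    · intro z hz
      have h0 : ∑ i, ∑ j, CC c i j ⟨w, k⟩ * CC c i j z = 0 := by
        refine Finset.sum_eq_zero fun i _ => Finset.sum_eq_zero fun j _ => ?_
        by_cases hi : i.1 = w
        · rw [CC_ne c i j z (fun h => hz (h.2.trans hi)), mul_zero]
        · rw [CC_ne c i j ⟨w, k⟩ (fun h => hi h.2.symm), zero_mul]
      rw [h0, zero_smul]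

end sum

section lie

variable {B E : Type} [Fintype E] (Q : Qv B E)

open Classical in
/-- the family which has the matrix `M` at `v` and `0` elsewhere -/
noncomputable def sg (v : B) (M : Matrix (Fin (Q.dim v)) (Fin (Q.dim v)) ℝ) : Q.Fam :=
  Function.update 0 v M

theorem sg_same (v : B) (M : Matrix (Fin (Q.dim v)) (Fin (Q.dim v)) ℝ) : sg Q v M v = M := by
  classical
  exact Function.update_self
    (β := fun v => Matrix (Fin (Q.dim v)) (Fin (Q.dim v)) ℝ) v M 0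

theorem sg_ne {v w : B} (h : w ≠ v) (M : Matrix (Fin (Q.dim v)) (Fin (Q.dim v)) ℝ) :
    sg Q v M w = 0 := by
  classical
  exact Function.update_of_ne
    (β := fun v => Matrix (Fin (Q.dim v)) (Fin (Q.dim v)) ℝ) h M 0

theorem sg_add (v : B) (M N : Matrix (Fin (Q.dim v)) (Fin (Q.dim v)) ℝ) :
    sg Q v (M + N) = sg Q v M + sg Q v N := by
  funext w
  by_cases h : w = v
  · subst h
    rw [Pi.add_apply, sg_same, sg_same, sg_same]
  · rw [Pi.add_apply, sg_ne Q h, sg_ne Q h, sg_ne Q h, add_zero]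

theorem sg_smul (v : B) (c : ℝ) (M : Matrix (Fin (Q.dim v)) (Fin (Q.dim v)) ℝ) :
    sg Q v (c • M) = c • sg Q v M := by
  funext w
  by_cases h : w = v
  · subst h
    rw [Pi.smul_apply, sg_same, sg_same]
  · rw [Pi.smul_apply, sg_ne Q h, sg_ne Q h, smul_zero]

theorem sg_sub (v : B) (M N : Matrix (Fin (Q.dim v)) (Fin (Q.dim v)) ℝ) :
    sg Q v (M - N) = sg Q v M - sg Q v N := by
  funext w
  by_cases h : w = v
  · subst h
    rw [Pi.sub_apply, sg_same, sg_same, sg_same]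
  · rw [Pi.sub_apply, sg_ne Q h, sg_ne Q h, sg_ne Q h, sub_zero]

theorem sg_mul (v : B) (M N : Matrix (Fin (Q.dim v)) (Fin (Q.dim v)) ℝ) :
    sg Q v (M * N) = sg Q v M * sg Q v N := by
  funext w
  by_cases h : w = v
  · subst h
    rw [Pi.mul_apply, sg_same, sg_same, sg_same]
  · rw [Pi.mul_apply, sg_ne Q h, sg_ne Q h, sg_ne Q h, mul_zero]

theorem sg_mul_ne {v w : B} (h : v ≠ w) (M : Matrix (Fin (Q.dim v)) (Fin (Q.dim v)) ℝ)
    (N : Matrix (Fin (Q.dim w)) (Fin (Q.dim w)) ℝ) : sg Q v M * sg Q w N = 0 := by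
  funext u
  rw [Pi.mul_apply]
  by_cases h1 : u = v
  · rw [sg_ne Q (w := u) (v := w) (by rw [h1]; exact h), mul_zero]
    rfl
  · rw [sg_ne Q h1, zero_mul]
    rfl

theorem sg_sum {ι : Type} (S : Finset ι) (v : B) (M : ι → Matrix (Fin (Q.dim v)) (Fin (Q.dim v)) ℝ) :
    sg Q v (∑ k ∈ S, M k) = ∑ k ∈ S, sg Q v (M k) := by
  classical
  induction S using Finset.induction_on with
  | empty =>
    rw [Finset.sum_empty, Finset.sum_empty]
    funext w
    by_cases h : w = v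
    · subst h
      rw [sg_same]
      rfl
    · rw [sg_ne Q h]
      rfl
  | insert j t hj ih => rw [Finset.sum_insert hj, Finset.sum_insert hj, sg_add, ih]

theorem sg_tp (v : B) (M : Matrix (Fin (Q.dim v)) (Fin (Q.dim v)) ℝ) (hM : Mᵀ = -M) (w : B) :
    (sg Q v M w)ᵀ = - sg Q v M w := by
  by_cases h : w = v
  · subst h
    rw [sg_same, hM]
  · rw [sg_ne Q h, Matrix.transpose_zero, neg_zero]

/-- the normalising factor -/
noncomputable def nf (v : B) : ℝ := (Real.sqrt ((Q.dim v : ℝ) - 2))⁻¹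

theorem nf_sq {v : B} (hv : 3 ≤ Q.dim v) : nf Q v ^ 2 * ((Q.dim v : ℝ) - 2) = 1 := by
  have h : (3 : ℝ) ≤ Q.dim v := by exact_mod_cast hv
  unfold nf
  rw [inv_pow, Real.sq_sqrt (by linarith), inv_mul_cancel₀ (by linarith)]

/-- the basis of the Lie algebra of the gauge group -/
noncomputable def AQ (k : Σ w : Q.gauge, KI (Q.dim w)) : V Q.Ix →ₗ[ℝ] V Q.Ix :=
  DQ Q (sg Q k.1 (nf Q k.1 • Km ℝ k.2))

variable [Fintype B]

noncomputable instance : Fintype Q.gauge := Fintype.ofFinite _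

theorem AQ_struc (h3 : ∀ v ∈ Q.gauge, 3 ≤ Q.dim v) :
    ∃ C : (Σ w : Q.gauge, KI (Q.dim w)) → (Σ w : Q.gauge, KI (Q.dim w)) →
      (Σ w : Q.gauge, KI (Q.dim w)) → ℝ, (∀ i j k, C j i k = - C i j k) ∧
    (∀ i j k, C i k j = - C i j k) ∧
    (∀ i j x, AQ Q i (AQ Q j x) - AQ Q j (AQ Q i x) = ∑ k, C i j k • AQ Q k x) ∧
    (∀ k x, ∑ l, (∑ i, ∑ j, C i j k * C i j l) • AQ Q l x = (1 : ℝ) • AQ Q k x) := by
  choose c hc1 hc2 hc3 hc4 using soK
  refine sum_struc (AQ Q) 1 (fun w i j k => nf Q w * c (Q.dim w) i j k) ?_ ?_ ?_ ?_ ?_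
  · intro w i j k
    show nf Q w * c (Q.dim w) j i k = -(nf Q w * c (Q.dim w) i j k)
    rw [hc1]
    ring
  · intro w i j k
    show nf Q w * c (Q.dim w) i k j = -(nf Q w * c (Q.dim w) i j k)
    rw [hc2]
    ring
  · intro w i j x
    unfold AQ
    rw [DQ_comm, ← sg_mul, ← sg_mul, ← sg_sub]
    have e1 : nf Q w • Km ℝ i * nf Q w • Km ℝ j - nf Q w • Km ℝ j * nf Q w • Km ℝ i =
        ∑ k, (nf Q w * c (Q.dim w) i j k) • (nf Q w • Km ℝ k) := by
      simp only [Matrix.smul_mul, Matrix.mul_smul, smul_smul]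
      rw [← smul_sub, hc3 _ i j, Finset.smul_sum]
      refine Finset.sum_congr rfl fun k _ => ?_
      rw [smul_smul]
      congr 1
      ring
    rw [e1, sg_sum]
    simp only [sg_smul Q _ (_ * _)]
    rw [DQ_sum]
  · intro w w' hw i j x
    unfold AQ
    rw [DQ_comm, sg_mul_ne Q (fun h => hw (Subtype.ext h)),
      sg_mul_ne Q (fun h => hw (Subtype.ext h.symm)), sub_zero, DQ_zero]
  · intro w k x
    unfold AQ
    rw [← DQ_sum]
    simp only [← sg_smul Q _ (∑ _, _)]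
    rw [← sg_sum, one_smul]
    congr 2
    have e1 : ∀ l, (∑ i, ∑ j, (nf Q w * c (Q.dim w) i j k) * (nf Q w * c (Q.dim w) i j l)) •
        (nf Q w • Km ℝ l) = (nf Q w ^ 2 * nf Q w) •
          ((∑ i, ∑ j, c (Q.dim w) i j k * c (Q.dim w) i j l) • Km ℝ l) := by
      intro l
      have e2 : ∑ i, ∑ j, (nf Q w * c (Q.dim w) i j k) * (nf Q w * c (Q.dim w) i j l) =
          nf Q w ^ 2 * ∑ i, ∑ j, c (Q.dim w) i j k * c (Q.dim w) i j l := by
        rw [Finset.mul_sum]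
        refine Finset.sum_congr rfl fun i _ => ?_
        rw [Finset.mul_sum]
        refine Finset.sum_congr rfl fun j _ => ?_
        ring
      rw [e2, smul_smul, smul_smul]
      congr 1
      ring
    rw [Finset.sum_congr rfl fun l _ => e1 l, ← Finset.smul_sum, hc4, smul_smul]
    congr 2
    have := nf_sq Q (h3 _ w.2)
    calc nf Q w ^ 2 * nf Q w * ((Q.dim w : ℝ) - 2) =
          nf Q w * (nf Q w ^ 2 * ((Q.dim w : ℝ) - 2)) := by ring
      _ = nf Q w := by rw [this, mul_one]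

end lie

end Pool.Agent.T6.H95.QG
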