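import Pool.Agent.TH591.TT.Sub
import Pool.Agent.T6.H95.KS.Alg

/-!
# Representations of a quiver: the space, the gauge group, its Lie algebra
-/

set_option autoImplicit false

set_option linter.unusedSectionVars false

namespace Pool.Agent.T6.H95.QG

open MeasureTheory Set Matrix
open scoped ENNReal InnerProductSpace
open Pool.Agent.TH591.TT

/-- a finite quiver with vertices `B` and arrows `E`, a dimension vector and a set of gauge
vertices -/
structure Qv (B E : Type) where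
  src : E → B
  tgt : E → B
  dim : B → ℕ
  gauge : Set B

variable {B E : Type} [Fintype E]

/-- the coordinates of the representation space -/
abbrev Qv.Ix (Q : Qv B E) : Type := Σ e : E, Fin (Q.dim (Q.tgt e)) × Fin (Q.dim (Q.src e))

/-- families of square matrices -/
abbrev Qv.Fam (Q : Qv B E) : Type := ∀ v : B, Matrix (Fin (Q.dim v)) (Fin (Q.dim v)) ℝ

section rep

variable (Q : Qv B E)

/-- the matrix of the arrow `e` -/
def mat (e : E) : V Q.Ix →ₗ[ℝ] Matrix (Fin (Q.dim (Q.tgt e))) (Fin (Q.dim (Q.src e))) ℝ where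
  toFun x := Matrix.of fun a b => x ⟨e, (a, b)⟩
  map_add' x y := by ext a b; simp
  map_smul' c x := by ext a b; simp

/-- the point with given matrices -/
def mkQ (X : ∀ e : E, Matrix (Fin (Q.dim (Q.tgt e))) (Fin (Q.dim (Q.src e))) ℝ) : V Q.Ix :=
  WithLp.toLp 2 fun p => X p.1 p.2.1 p.2.2

variable {Q}

theorem mat_mk (X : ∀ e : E, Matrix (Fin (Q.dim (Q.tgt e))) (Fin (Q.dim (Q.src e))) ℝ) (e : E) :
    mat Q e (mkQ Q X) = X e := rfl

theorem extQ {x y : V Q.Ix} (h : ∀ e, mat Q e x = mat Q e y) : x = y := by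
  ext p
  obtain ⟨e, a, b⟩ := p
  exact congrFun (congrFun (h e) a) b

theorem innerQ (x y : V Q.Ix) : ⟪x, y⟫_ℝ = ∑ e, hs (mat Q e x) (mat Q e y) := by
  rw [PiLp.inner_apply, Fintype.sum_sigma]
  refine Finset.sum_congr rfl fun e _ => ?_
  rw [Fintype.sum_prod_type]
  unfold hs
  refine Finset.sum_congr rfl fun i _ => Finset.sum_congr rfl fun j _ => ?_
  simp [mat, mul_comm]

theorem normQ (x : V Q.Ix) : ‖x‖ ^ 2 = ∑ e, hs (mat Q e x) (mat Q e x) := by
  rw [← real_inner_self_eq_norm_sq, innerQ]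

theorem hs_le (x : V Q.Ix) (e : E) : hs (mat Q e x) (mat Q e x) ≤ ‖x‖ ^ 2 := by
  rw [normQ]
  exact Finset.single_le_sum (f := fun e => hs (mat Q e x) (mat Q e x))
    (fun e _ => hs_nonneg _) (Finset.mem_univ e)

variable (Q)

/-- the action of a family of matrices -/
def RQ (g : Q.Fam) : V Q.Ix →ₗ[ℝ] V Q.Ix where
  toFun x := mkQ Q fun e => g (Q.tgt e) * mat Q e x * (g (Q.src e))ᵀ
  map_add' x y := by
    refine extQ fun e => ?_
    rw [mat_mk, map_add, map_add, mat_mk, mat_mk, Matrix.mul_add, Matrix.add_mul]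
  map_smul' c x := by
    refine extQ fun e => ?_
    rw [mat_mk, map_smul, RingHom.id_apply, map_smul, mat_mk, Matrix.mul_smul, Matrix.smul_mul]

/-- the infinitesimal action -/
def DQ (K : Q.Fam) : V Q.Ix →ₗ[ℝ] V Q.Ix where
  toFun x := mkQ Q fun e => K (Q.tgt e) * mat Q e x - mat Q e x * K (Q.src e)
  map_add' x y := by
    refine extQ fun e => ?_
    rw [mat_mk, map_add, map_add, mat_mk, mat_mk, Matrix.mul_add, Matrix.add_mul]
    abel
  map_smul' c x := by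
    refine extQ fun e => ?_
    rw [mat_mk, map_smul, RingHom.id_apply, map_smul, mat_mk, Matrix.mul_smul, Matrix.smul_mul,
      smul_sub]

variable {Q}

theorem mat_RQ (g : Q.Fam) (x : V Q.Ix) (e : E) :
    mat Q e (RQ Q g x) = g (Q.tgt e) * mat Q e x * (g (Q.src e))ᵀ := rfl

theorem mat_DQ (K : Q.Fam) (x : V Q.Ix) (e : E) :
    mat Q e (DQ Q K x) = K (Q.tgt e) * mat Q e x - mat Q e x * K (Q.src e) := rfl

theorem RQ_RQ (g h : Q.Fam) (x : V Q.Ix) : RQ Q g (RQ Q h x) = RQ Q (fun v => g v * h v) x := by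
  refine extQ fun e => ?_
  rw [mat_RQ, mat_RQ, mat_RQ, Matrix.transpose_mul]
  simp only [Matrix.mul_assoc]

theorem RQ_one (x : V Q.Ix) : RQ Q (fun _ => 1) x = x := by
  refine extQ fun e => ?_
  rw [mat_RQ, Matrix.transpose_one, Matrix.one_mul, Matrix.mul_one]

/-- the gauge group: special orthogonal matrices at the gauge vertices, the identity elsewhere -/
def IsG (Q : Qv B E) (g : Q.Fam) : Prop := (∀ v ∈ Q.gauge, IsSO (g v)) ∧ ∀ v ∉ Q.gauge, g v = 1

theorem IsG.orth {g : Q.Fam} (hg : IsG Q g) (v : B) :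
    g v ∈ Matrix.orthogonalGroup (Fin (Q.dim v)) ℝ := by
  by_cases hv : v ∈ Q.gauge
  · exact (hg.1 v hv).1
  · rw [hg.2 v hv]
    exact one_mem _

theorem IsG.tp {g : Q.Fam} (hg : IsG Q g) : IsG Q fun v => (g v)ᵀ :=
  ⟨fun v hv => (hg.1 v hv).tp, fun v hv => by
    show (g v)ᵀ = 1
    rw [hg.2 v hv, Matrix.transpose_one]⟩

theorem norm_RQ {g : Q.Fam} (hg : IsG Q g) (x : V Q.Ix) : ‖RQ Q g x‖ = ‖x‖ := by
  have h1 : ‖RQ Q g x‖ ^ 2 = ‖x‖ ^ 2 := by
    rw [normQ, normQ]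
    refine Finset.sum_congr rfl fun e _ => ?_
    rw [mat_RQ, hs_orth_right (g (Q.src e))ᵀ (by
      rw [Matrix.transpose_transpose]; exact orth2 (hg.orth _)), hs_orth_left _ (orth2 (hg.orth _))]
  exact (sq_eq_sq₀ (norm_nonneg _) (norm_nonneg _)).1 h1

/-- the isometry of an element of the gauge group -/
noncomputable def isoQ (g : Q.Fam) (hg : IsG Q g) : V Q.Ix ≃ₗᵢ[ℝ] V Q.Ix :=
  { RQ Q g with
    invFun := RQ Q fun v => (g v)ᵀ
    left_inv := fun x => by
      show RQ Q (fun v => (g v)ᵀ) (RQ Q g x) = x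
      rw [RQ_RQ]
      have : (fun v => (g v)ᵀ * g v) = fun v => (1 : Matrix (Fin (Q.dim v)) (Fin (Q.dim v)) ℝ) := by
        funext v
        exact orth2 (hg.orth v)
      rw [this, RQ_one]
    right_inv := fun x => by
      show RQ Q g (RQ Q (fun v => (g v)ᵀ) x) = x
      rw [RQ_RQ]
      have : (fun v => g v * (g v)ᵀ) = fun v => (1 : Matrix (Fin (Q.dim v)) (Fin (Q.dim v)) ℝ) := by
        funext v
        exact orth1 (hg.orth v)
      rw [this, RQ_one]
    norm_map' := fun x => norm_RQ hg x }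

theorem isoQ_apply (g : Q.Fam) (hg : IsG Q g) (x : V Q.Ix) : isoQ g hg x = RQ Q g x := rfl

/-- the group of isometries -/
def GQ (Q : Qv B E) : Set (V Q.Ix ≃ₗᵢ[ℝ] V Q.Ix) := {e | ∃ g, IsG Q g ∧ ∀ x, e x = RQ Q g x}

theorem isoQ_mem (g : Q.Fam) (hg : IsG Q g) : isoQ g hg ∈ GQ Q := ⟨g, hg, fun _ => rfl⟩

theorem DQ_skew {K : Q.Fam} (hK : ∀ v, (K v)ᵀ = -K v) (x y : V Q.Ix) :
    ⟪DQ Q K x, y⟫_ℝ = - ⟪x, DQ Q K y⟫_ℝ := by
  rw [innerQ, innerQ, ← Finset.sum_neg_distrib]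
  refine Finset.sum_congr rfl fun e _ => ?_
  rw [mat_DQ, mat_DQ, hs_sub_left, hs_sub_right, hs_mul_left, hs_mul_right, hK, hK, Matrix.neg_mul,
    Matrix.mul_neg, hs_neg_right, hs_neg_right]
  ring

theorem DQ_add (K L : Q.Fam) (x : V Q.Ix) : DQ Q (K + L) x = DQ Q K x + DQ Q L x := by
  refine extQ fun e => ?_
  rw [map_add, mat_DQ, mat_DQ, mat_DQ, Pi.add_apply, Pi.add_apply, Matrix.add_mul, Matrix.mul_add]
  abel

theorem DQ_smul (c : ℝ) (K : Q.Fam) (x : V Q.Ix) : DQ Q (c • K) x = c • DQ Q K x := by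
  refine extQ fun e => ?_
  rw [map_smul, mat_DQ, mat_DQ, Pi.smul_apply, Pi.smul_apply, Matrix.smul_mul, Matrix.mul_smul,
    smul_sub]

theorem DQ_zero (x : V Q.Ix) : DQ Q (0 : Q.Fam) x = 0 := by
  have := DQ_smul 0 (0 : Q.Fam) x
  rwa [zero_smul, zero_smul] at this

theorem DQ_sum {ι : Type} (S : Finset ι) (c : ι → ℝ) (K : ι → Q.Fam)
    (x : V Q.Ix) : DQ Q (∑ k ∈ S, c k • K k) x = ∑ k ∈ S, c k • DQ Q (K k) x := by
  classical
  induction S using Finset.induction_on with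
  | empty => simp [DQ_zero]
  | insert j t hj ih => rw [Finset.sum_insert hj, Finset.sum_insert hj, DQ_add, ih, DQ_smul]

theorem DQ_comm (K L : Q.Fam) (x : V Q.Ix) :
    DQ Q K (DQ Q L x) - DQ Q L (DQ Q K x) = DQ Q (K * L - L * K) x := by
  refine extQ fun e => ?_
  rw [map_sub, mat_DQ, mat_DQ, mat_DQ, mat_DQ, mat_DQ]
  simp only [Pi.sub_apply, Pi.mul_apply, Matrix.mul_sub, Matrix.sub_mul, Matrix.mul_assoc]
  abel

/-- derivative of the action along a one parameter group -/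
theorem RQ_der (K : Q.Fam) (hK : ∀ v, (K v)ᵀ = -K v) (U : ℝ → Q.Fam)
    (h0 : ∀ v, U 0 v = 1) (hder : ∀ v a b, HasDerivAt (fun t => U t v a b) (K v a b) 0)
    (x : V Q.Ix) : HasDerivAt (fun t => RQ Q (U t) x) (DQ Q K x) 0 := by
  have h1 : HasDerivAt (fun t : ℝ => fun p : Q.Ix => (RQ Q (U t) x) p)
      (fun p => (DQ Q K x) p) 0 := by
    rw [hasDerivAt_pi]
    intro p
    obtain ⟨e, a, b⟩ := p
    have e1 := mul_der (fun t => U t (Q.tgt e)) (fun _ => mat Q e x) (K (Q.tgt e)) 0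
      (hder (Q.tgt e)) (fun a b => hasDerivAt_const _ _)
    have e2 := mul_der (fun t => U t (Q.tgt e) * mat Q e x) (fun t => (U t (Q.src e))ᵀ)
      (K (Q.tgt e) * mat Q e x + U 0 (Q.tgt e) *
        (0 : Matrix (Fin (Q.dim (Q.tgt e))) (Fin (Q.dim (Q.src e))) ℝ)) (K (Q.src e))ᵀ e1
      (fun a b => hder (Q.src e) b a) a b
    have e3 : ((K (Q.tgt e) * mat Q e x + U 0 (Q.tgt e) *
        (0 : Matrix (Fin (Q.dim (Q.tgt e))) (Fin (Q.dim (Q.src e))) ℝ)) * (U 0 (Q.src e))ᵀ +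
        U 0 (Q.tgt e) * mat Q e x * (K (Q.src e))ᵀ) = mat Q e (DQ Q K x) := by
      rw [h0, h0, mat_DQ, hK, Matrix.transpose_one, Matrix.mul_zero, add_zero, Matrix.mul_one,
        Matrix.one_mul, Matrix.mul_neg, sub_eq_add_neg]
    rw [e3] at e2
    exact e2
  exact ((PiLp.continuousLinearEquiv 2 ℝ
    (fun _ : Q.Ix => ℝ)).symm.hasFDerivAt).comp_hasDerivAt (0 : ℝ) h1

end rep

end Pool.Agent.T6.H95.QG
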