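import Pool.Agent.T6.H95.QG.Core
import Pool.Agent.T6.H95.QG.Unb

/-!
# KLS for gauge invariant measures on representations of a quiver
-/

set_option autoImplicit false

namespace Pool.Agent.T6.H95.QG

open MeasureTheory Set Matrix
open scoped ENNReal InnerProductSpace
open Pool.Agent.TH591.TT
open Pool.Agent.H212R2.KLS (mu Bdd)

theorem topQ : ∃ C : ℝ, 0 < C ∧ ∀ {B E : Type} [Fintype B] [Fintype E] [Nonempty E] (Q : Qv B E),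
    (∀ v ∈ Q.gauge, 3 ≤ Q.dim v) → (∀ v, 1 ≤ Q.dim v) → ∀ κ : ℝ,
    (κ = fixN Q + 1 ∨ (1 ≤ κ ∧ ∀ n ≤ fixN Q, KLSb n κ)) → ∀ δ : ℝ, 1 ≤ δ →
    (∀ w ∈ Q.gauge, wdeg Q (Real.log (Fintype.card Q.Ix)) w ≤ δ) →
    ∀ ρ : V Q.Ix → ℝ, GD (GQ Q) ρ → mu ρ univ = 1 → ∀ s : ℝ, 0 < s →
    (∀ θ : V Q.Ix, ProbabilityTheory.evariance (fun x => ⟪θ, x⟫_ℝ) (mu ρ) ≤
      ENNReal.ofReal (s * ‖θ‖ ^ 2)) → ∀ f : V Q.Ix → ℝ, ContDiff ℝ 1 f →
    ((∀ x, ‖fderiv ℝ f x‖ ≤ 1) → MemLp f 2 (mu ρ) ∧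
      ProbabilityTheory.variance f (mu ρ) ≤ C * κ * δ * s) ∧
    ((∀ x, |f x| ≤ 1) → ENNReal.ofReal (ProbabilityTheory.variance f (mu ρ) ^ 2) ≤
      ENNReal.ofReal (C * κ * δ * s) * ∫⁻ x, ENNReal.ofReal (‖fderiv ℝ f x‖ ^ 2) ∂(mu ρ)) := by
  obtain ⟨C, hC, hcore⟩ := coreQ
  obtain ⟨C₁, hC₁, hcrude⟩ := UT_crude
  refine ⟨8 * (C * (55 + C₁)), by positivity, ?_⟩
  intro B E _ _ _ Q h3 hd1 κ hκ δ hδ hdeg ρ hρ h1 s hs hvar f hf
  have hκ1 : 1 ≤ κ := by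
    rcases hκ with h | h
    · rw [h]
      have : (0 : ℝ) ≤ fixN Q := Nat.cast_nonneg _
      linarith
    · exact h.1
  have hUT : UT (Module.finrank ℝ (FQ Q)) ((55 + C₁) * κ) := by
    have hle := FQ_le Q h3
    have hmono : ∀ U U' : ℝ, U ≤ U' → UT (Module.finrank ℝ (FQ Q)) U →
        UT (Module.finrank ℝ (FQ Q)) U' := by
      intro U U' hUU h κ' _ ρ hρ e he K hK hmom hloc f hf
      obtain ⟨c, hc⟩ := h _ ρ hρ e he K hK hmom hloc f hf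
      refine ⟨c, hc.trans ?_⟩
      have h2 : 0 ≤ ∫ x, ‖fderiv ℝ f x‖ ^ 2 ∂(mu ρ) := integral_nonneg fun x => by positivity
      exact mul_le_mul_of_nonneg_right (mul_le_mul_of_nonneg_right hUU hK.le) h2
    rcases hκ with h | h
    · refine hmono _ _ ?_ (hcrude _)
      have h4 : (Module.finrank ℝ (FQ Q) : ℝ) ≤ fixN Q := by exact_mod_cast hle
      rw [h]
      have h5 : (0 : ℝ) ≤ fixN Q := Nat.cast_nonneg _
      have h6 : C₁ * ((Module.finrank ℝ (FQ Q) : ℝ) + 1) ≤ C₁ * (fixN Q + 1) :=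
        mul_le_mul_of_nonneg_left (by linarith) hC₁.le
      nlinarith
    · refine hmono _ _ ?_ (UT_of_KLSb (by linarith) (h.2 _ hle))
      have : 0 ≤ C₁ * κ := by positivity
      linarith
  have hU1 : 1 ≤ (55 + C₁) * κ := by nlinarith
  have hLSP : LSP (GQ Q) (C * ((55 + C₁) * κ * δ)) := by
    intro ρ hρ hb h1 s hs hmom f hf hf1
    exact hcore Q h3 hd1 _ hU1 hUT δ hδ hdeg ρ hρ hb h1 s hs hmom f hf hf1
  have hpos : 0 < C * ((55 + C₁) * κ * δ) := by positivity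
  obtain ⟨r1, r2⟩ := finalG hpos hLSP ρ hρ h1 s hs hvar f hf
  refine ⟨fun hf1 => ?_, fun hfb => ?_⟩
  · obtain ⟨h5, h6⟩ := r1 hf1
    refine ⟨h5, h6.trans ?_⟩
    have e1 : 8 * (C * (55 + C₁)) * κ * δ * s = 8 * (C * ((55 + C₁) * κ * δ) * s) := by ring
    rw [e1]
    have : 0 ≤ C * ((55 + C₁) * κ * δ) * s := by positivity
    linarith
  · refine (r2 hfb).trans (mul_le_mul_left (ENNReal.ofReal_le_ofReal (le_of_eq ?_)) _)
    ring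

end Pool.Agent.T6.H95.QG
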