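import Pool.Agent.H888R2.KT.V5

/-!
# Removing a Gaussian tilt: the constant is the one of the marginal
-/

set_option autoImplicit false

namespace Pool.Agent.T6.H95.QG

open MeasureTheory Set Matrix Pool.Agent.H888R2.KC Pool.Agent.H888R2.KT
open scoped ENNReal InnerProductSpace
open Pool.Agent.H212R2.KLS (mu Bdd ev gr)
open Pool.Agent.H888R2.KT.V4bx (prodint w w_eq fub)
open Pool.Agent.H888R2.KT.V5x (tw_pos tw_cont intg int3 cs expand norm_comb inner_comb)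

variable {κ : Type} [Fintype κ] {q : ℕ}

theorem gauL (K : ℝ) (hK : 0 < K) (t : ℝ) :
    Integrable (fun τ : ℝ => τ * Real.exp (-((t - τ) ^ 2 / (2 * K)))) ∧
    ∫ τ : ℝ, τ * Real.exp (-((t - τ) ^ 2 / (2 * K))) = Real.sqrt (2 * Real.pi * K) * t := by
  have hv : Real.toNNReal K ≠ 0 := (Real.toNNReal_pos.mpr hK).ne'
  set v : NNReal := Real.toNNReal K with hvd
  have hL : MemLp id 2 (ProbabilityTheory.gaussianReal t v) :=
    ProbabilityTheory.memLp_id_gaussianReal 2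
  have hsq : Integrable (fun τ : ℝ => τ) (ProbabilityTheory.gaussianReal t v) :=
    hL.integrable (by norm_num)
  have hmean : ∫ x, x ∂ProbabilityTheory.gaussianReal t v = t :=
    ProbabilityTheory.integral_id_gaussianReal
  rw [ProbabilityTheory.integral_gaussianReal_eq_integral_smul hv] at hmean
  have hsq' : Integrable (fun τ : ℝ => ProbabilityTheory.gaussianPDFReal t v τ * τ) := by
    rw [ProbabilityTheory.gaussianReal_of_var_ne_zero t hv] at hsq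
    rw [integrable_withDensity_iff_integrable_smul'
      (ProbabilityTheory.measurable_gaussianPDF t v)
      (ae_of_all _ fun x => ProbabilityTheory.gaussianPDF_lt_top)] at hsq
    refine hsq.congr (ae_of_all _ fun x => ?_)
    simp only [ProbabilityTheory.toReal_gaussianPDF, smul_eq_mul]
  have h4 : ∀ τ : ℝ, τ * Real.exp (-((t - τ) ^ 2 / (2 * K))) =
      Real.sqrt (2 * Real.pi * K) * (ProbabilityTheory.gaussianPDFReal t v τ * τ) := by
    intro τ
    rw [U2x.gau K hK]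
    ring
  simp only [h4]
  constructor
  · exact hsq'.const_mul _
  · rw [integral_const_mul]
    simp only [smul_eq_mul] at hmean
    rw [hmean]

/-- second moments of the Gaussian weight in a direction -/
theorem w3 (K : ℝ) (hK : 0 < K) (θ : EuclideanSpace ℝ (Fin q)) (s : Fin q → ℝ) :
    (Integrable fun τ : EuclideanSpace ℝ (Fin q) => ⟪θ, τ⟫_ℝ ^ 2 * w K s τ) ∧
    (∫ τ : EuclideanSpace ℝ (Fin q), ⟪θ, τ⟫_ℝ ^ 2 * w K s τ) =
      Real.sqrt (2 * Real.pi * K) ^ q * ((∑ j, θ j * s j) ^ 2 + K * ‖θ‖ ^ 2) := by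
  classical
  have hin : ∀ τ : EuclideanSpace ℝ (Fin q), ⟪θ, τ⟫_ℝ = ∑ i, θ i * τ i := by
    intro τ
    rw [PiLp.inner_apply]
    refine Finset.sum_congr rfl fun i _ => ?_
    simp [mul_comm]
  have hn : ∀ τ : EuclideanSpace ℝ (Fin q), ⟪θ, τ⟫_ℝ ^ 2 * w K s τ =
      ∑ i, ∑ j, (θ i * θ j) * ∏ l, (((if l = i then τ l else 1) * (if l = j then τ l else 1)) *
        Real.exp (-((s l - τ l) ^ 2 / (2 * K)))) := by
    intro τ
    rw [hin, sq, Finset.sum_mul_sum, Finset.sum_mul]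
    refine Finset.sum_congr rfl fun i _ => ?_
    rw [Finset.sum_mul]
    refine Finset.sum_congr rfl fun j _ => ?_
    rw [Finset.prod_mul_distrib, Finset.prod_mul_distrib,
      Finset.prod_ite_eq' Finset.univ i (fun l => τ l),
      Finset.prod_ite_eq' Finset.univ j (fun l => τ l), w_eq]
    simp only [Finset.mem_univ, if_true]
    ring
  simp only [hn]
  have hi : ∀ i j l : Fin q, (Integrable (fun t : ℝ =>
      ((if l = i then t else 1) * (if l = j then t else 1)) *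
        Real.exp (-((s l - t) ^ 2 / (2 * K))))) ∧
      ∫ t : ℝ, ((if l = i then t else 1) * (if l = j then t else 1)) *
        Real.exp (-((s l - t) ^ 2 / (2 * K))) = Real.sqrt (2 * Real.pi * K) *
        (((if l = i then s l else 1) * (if l = j then s l else 1)) +
          (if l = i ∧ l = j then K else 0)) := by
    intro i j l
    by_cases h1 : l = i
    · by_cases h2 : l = j
      · simp only [h1, h2, if_true, and_self]
        have e1 : j = i := h2.symm.trans h1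
        subst e1
        simp only [if_true, and_self]
        have := U2x.gau2 K hK (s j)
        simp only [sq] at this ⊢
        exact this
      · simp only [h1, if_true, true_and]
        have e1 : ¬ i = j := fun h => h2 (h1.trans h)
        simp only [e1, if_false, mul_one, add_zero]
        exact gauL K hK (s i)
    · by_cases h2 : l = j
      · simp only [h1, h2, if_true, false_and, if_false, one_mul, add_zero]
        have e1 : ¬ j = i := fun h => h1 (h2.trans h)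
        simp only [e1, if_false, one_mul, false_and, add_zero]
        exact gauL K hK (s j)
      · simp only [h1, h2, if_false, false_and, mul_one, add_zero]
        have := U2x.gau1 K hK (s l)
        simp only [one_mul] at this ⊢
        exact this
  have hp := fun i j : Fin q => prodint (fun l t =>
      ((if l = i then t else 1) * (if l = j then t else 1)) *
        Real.exp (-((s l - t) ^ 2 / (2 * K)))) (fun l => (hi i j l).1)
  constructor
  · exact integrable_finsetSum _ fun i _ => integrable_finsetSum _ fun j _ =>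
      (hp i j).1.const_mul _
  · rw [integral_finsetSum _ fun i _ => integrable_finsetSum _ fun j _ =>
      (hp i j).1.const_mul _]
    have h5 : ∀ i : Fin q, ∫ τ : EuclideanSpace ℝ (Fin q), ∑ j, (θ i * θ j) *
        ∏ l, (((if l = i then τ l else 1) * (if l = j then τ l else 1)) *
        Real.exp (-((s l - τ l) ^ 2 / (2 * K)))) =
        ∑ j, (θ i * θ j) * (Real.sqrt (2 * Real.pi * K) ^ q *
          (s i * s j + if i = j then K else 0)) := by
      intro i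
      rw [integral_finsetSum _ fun j _ => (hp i j).1.const_mul _]
      refine Finset.sum_congr rfl fun j _ => ?_
      rw [integral_const_mul, (hp i j).2]
      simp only [(hi i j _).2]
      rw [Finset.prod_mul_distrib, Finset.prod_const, Finset.card_univ, Fintype.card_fin]
      congr 2
      by_cases hij : i = j
      · subst hij
        rw [if_pos rfl]
        rw [Finset.prod_eq_single i]
        · simp
        · intro l _ hl
          simp [hl]
        · intro h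
          exact absurd (Finset.mem_univ i) h
      · rw [if_neg hij, add_zero]
        have e1 : ∀ l, ((if l = i then s l else 1) * (if l = j then s l else 1) +
            if l = i ∧ l = j then K else 0) =
            (if l = i then s l else 1) * (if l = j then s l else 1) := by
          intro l
          have h7 : ¬ (l = i ∧ l = j) := by
            rintro ⟨h1, h2⟩
            exact hij (h1.symm.trans h2)
          rw [if_neg h7, add_zero]
        simp only [e1]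
        rw [Finset.prod_mul_distrib, Finset.prod_ite_eq' Finset.univ i (fun l => s l),
          Finset.prod_ite_eq' Finset.univ j (fun l => s l)]
        simp
    simp only [h5]
    have h6 : ∀ i j : Fin q, (θ i * θ j) * (Real.sqrt (2 * Real.pi * K) ^ q *
          (s i * s j + if i = j then K else 0)) = Real.sqrt (2 * Real.pi * K) ^ q *
          ((θ i * s i) * (θ j * s j) + (if i = j then K * (θ i * θ j) else 0)) := by
      intro i j
      split_ifs <;> ring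
    simp only [h6]
    simp only [← Finset.mul_sum, Finset.sum_add_distrib, Finset.sum_ite_eq, Finset.mem_univ,
      if_true]
    congr 2
    · rw [sq, Finset.sum_mul]
    · rw [EuclideanSpace.norm_sq_eq]
      congr 1
      refine Finset.sum_congr rfl fun i _ => ?_
      rw [Real.norm_eq_abs, sq_abs, sq]

theorem tw_fub3 (μ : Measure (EuclideanSpace ℝ κ)) [IsFiniteMeasure μ]
    (hb : ∃ R, μ (Metric.closedBall 0 R)ᶜ = 0) (e : Fin q → EuclideanSpace ℝ κ) (K : ℝ)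
    (hK : 0 < K) (θ : EuclideanSpace ℝ (Fin q)) :
    (Integrable fun τ : EuclideanSpace ℝ (Fin q) => ⟪θ, τ⟫_ℝ ^ 2 * ∫ x, tw e K τ x ∂μ) ∧
    (∫ τ : EuclideanSpace ℝ (Fin q), ⟪θ, τ⟫_ℝ ^ 2 * ∫ x, tw e K τ x ∂μ) =
      Real.sqrt (2 * Real.pi * K) ^ q *
        ∫ x, ((∑ j, θ j * ⟪e j, x⟫_ℝ) ^ 2 + K * ‖θ‖ ^ 2) ∂μ := by
  obtain ⟨h3, h4⟩ := fub μ hb e K (fun _ => 1) continuous_const (fun τ => ⟪θ, τ⟫_ℝ ^ 2)
    (by fun_prop) (fun τ => sq_nonneg _)
    (fun s => Real.sqrt (2 * Real.pi * K) ^ q * ((∑ j, θ j * s j) ^ 2 + K * ‖θ‖ ^ 2))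
    (by fun_prop) (fun s => (w3 K hK θ s).1) (fun s => (w3 K hK θ s).2)
  simp only [one_mul] at h3 h4
  simp only [integral_const_mul] at h3 h4
  exact ⟨h3, h4⟩

theorem mainK (C3 : ℝ) (hC3 : 0 < C3)
    (crude : ∀ (Z M : EuclideanSpace ℝ (Fin q) → ℝ),
      (∀ x, 0 < Z x) → Continuous Z →
      (∀ a b : EuclideanSpace ℝ (Fin q), ∀ t : ℝ, 0 < t → t < 1 →
        Z a ^ (1 - t) * Z b ^ t ≤ Z ((1 - t) • a + t • b)) →
      Integrable Z → ∀ σ : ℝ, 0 < σ →
      (∀ θ : EuclideanSpace ℝ (Fin q), Integrable (fun x => ⟪θ, x⟫_ℝ ^ 2 * Z x)) →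
      (∀ θ : EuclideanSpace ℝ (Fin q), ∫ x, ⟪θ, x⟫_ℝ ^ 2 * Z x ≤ σ * ‖θ‖ ^ 2 * ∫ x, Z x) →
      ContDiff ℝ 1 M → (∃ B, ∀ x, |M x| ≤ B) →
      Integrable (fun x => ‖fderiv ℝ M x‖ ^ 2 * Z x) →
      ∃ c : ℝ, ∫ x, (M x - c) ^ 2 * Z x ≤ C3 * σ * ∫ x, ‖fderiv ℝ M x‖ ^ 2 * Z x)
    (μ : Measure (EuclideanSpace ℝ κ)) [IsFiniteMeasure μ] [NeZero μ]
    (hb : ∃ R, μ (Metric.closedBall 0 R)ᶜ = 0)
    (e : Fin q → EuclideanSpace ℝ κ) (he : Orthonormal ℝ e) (K : ℝ) (hK : 0 < K)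
    (hmom : ∀ θ : EuclideanSpace ℝ κ, ∫ x, ⟪θ, x⟫_ℝ ^ 2 ∂μ ≤ K * ‖θ‖ ^ 2 * (μ univ).toReal)
    (hlcZ : ∀ (a b : EuclideanSpace ℝ (Fin q)) (t : ℝ), 0 < t → t < 1 →
      (∫ x, tw e K a x ∂μ) ^ (1 - t) * (∫ x, tw e K b x ∂μ) ^ t ≤
      ∫ x, tw e K ((1 - t) • a + t • b) x ∂μ)
    (hloc : ∀ (τ : EuclideanSpace ℝ (Fin q)) (f : EuclideanSpace ℝ κ → ℝ), ContDiff ℝ 1 f →
      ∃ c : ℝ, ∫ x, (f x - c) ^ 2 * tw e K τ x ∂μ ≤
        5 * K * ∫ x, ‖fderiv ℝ f x‖ ^ 2 * tw e K τ x ∂μ)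
    (f : EuclideanSpace ℝ κ → ℝ) (hf : ContDiff ℝ 1 f) :
    ∃ c : ℝ, ∫ x, (f x - c) ^ 2 ∂μ ≤
      (5 + 50 * C3) * K * ∫ x, ‖fderiv ℝ f x‖ ^ 2 ∂μ := by
  have hfc : Continuous f := hf.continuous
  have hdc : Continuous fun x => ‖fderiv ℝ f x‖ ^ 2 :=
    ((hf.continuous_fderiv (by norm_num)).norm).pow 2
  have hWc := tw_cont e K
  set Z : EuclideanSpace ℝ (Fin q) → ℝ := fun τ => ∫ x, tw e K τ x ∂μ with hZdef
  set A : EuclideanSpace ℝ (Fin q) → ℝ := fun τ => ∫ x, f x * tw e K τ x ∂μ with hAdef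
  set D : EuclideanSpace ℝ (Fin q) → ℝ :=
    fun τ => ∫ x, ‖fderiv ℝ f x‖ ^ 2 * tw e K τ x ∂μ with hDdef
  have hZpos : ∀ τ, 0 < Z τ := fun τ =>
    integral_exp_pos (intg μ hb (tw e K τ) (hWc τ))
  obtain ⟨hZ1, hZd⟩ := tw_deriv μ hb e K hK (fun _ => (1 : ℝ)) continuous_const
  simp only [one_mul] at hZ1 hZd
  have hZ1 : ContDiff ℝ 1 Z := hZ1
  obtain ⟨hA1, hAd⟩ := tw_deriv μ hb e K hK f hfc
  have hA1 : ContDiff ℝ 1 A := hA1
  have hZc : Continuous Z := hZ1.continuous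
  have hAc : Continuous A := hA1.continuous
  obtain ⟨hZi, hZI, hZ2i, hZ2I⟩ := tw_fub μ hb e K hK (fun _ => (1 : ℝ)) continuous_const
  simp only [one_mul] at hZi hZI
  have hZi : Integrable Z := hZi
  obtain ⟨hDi, hDI, -, -⟩ := tw_fub μ hb e K hK (fun x => ‖fderiv ℝ f x‖ ^ 2) hdc
  have hDi : Integrable D := hDi
  set G : ℝ := Real.sqrt (2 * Real.pi * K) ^ q with hG
  have hGpos : 0 < G := pow_pos (Real.sqrt_pos.2 (by positivity)) _
  set J : ℝ := ∫ x, ‖fderiv ℝ f x‖ ^ 2 ∂μ with hJ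
  have hJ0 : 0 ≤ J := integral_nonneg fun x => by positivity
  have hDI : ∫ τ, D τ = G * J := hDI
  -- the mean
  set M : EuclideanSpace ℝ (Fin q) → ℝ := fun τ => A τ / Z τ with hMdef
  have hMm : ∀ τ, ∫ x, f x * tw e K τ x ∂μ = M τ * ∫ x, tw e K τ x ∂μ := fun τ => by
    show A τ = A τ / Z τ * Z τ
    rw [div_mul_cancel₀ _ (hZpos τ).ne']
  have hMc1 : ContDiff ℝ 1 M := hA1.div hZ1 fun τ => (hZpos τ).ne'
  have hMc : Continuous M := hMc1.continuous
  have hM'c : Continuous (fderiv ℝ M) := hMc1.continuous_fderiv (by norm_num)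
  have hMd : ∀ τ a, fderiv ℝ M τ a * Z τ = fderiv ℝ A τ a - M τ * fderiv ℝ Z τ a := by
    intro τ a
    have h1 : A = fun τ => M τ * Z τ := by
      funext τ
      show A τ = A τ / Z τ * Z τ
      rw [div_mul_cancel₀ _ (hZpos τ).ne']
    have h2 : HasFDerivAt (fun τ => M τ * Z τ) (M τ • fderiv ℝ Z τ + Z τ • fderiv ℝ M τ) τ :=
      ((hMc1.differentiable (by norm_num) τ).hasFDerivAt).mul
        ((hZ1.differentiable (by norm_num) τ).hasFDerivAt)
    have h3 : fderiv ℝ A τ = M τ • fderiv ℝ Z τ + Z τ • fderiv ℝ M τ := by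
      rw [h1]
      exact h2.fderiv
    rw [h3]
    simp only [ContinuousLinearMap.add_apply, ContinuousLinearMap.smul_apply, smul_eq_mul]
    ring
  -- variance bounds
  have hvar : ∀ (g : EuclideanSpace ℝ κ → ℝ) (_ : ContDiff ℝ 1 g)
      (τ : EuclideanSpace ℝ (Fin q)) (m : ℝ),
      ∫ x, g x * tw e K τ x ∂μ = m * ∫ x, tw e K τ x ∂μ →
      ∫ x, (g x - m) ^ 2 * tw e K τ x ∂μ ≤
        5 * K * ∫ x, ‖fderiv ℝ g x‖ ^ 2 * tw e K τ x ∂μ := by
    intro g hg τ m hm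
    obtain ⟨c, hc⟩ := hloc τ g hg
    have h1 := expand μ hb g (tw e K τ) hg.continuous (hWc τ) m hm c
    have h2 : 0 ≤ (m - c) ^ 2 * ∫ x, tw e K τ x ∂μ := mul_nonneg (sq_nonneg _) (hZpos τ).le
    linarith
  -- the derivative of the mean
  have hM'a : ∀ τ a, (fderiv ℝ M τ a) ^ 2 * Z τ ≤ 25 * ‖a‖ ^ 2 * D τ := by
    intro τ a
    set v : EuclideanSpace ℝ κ := ∑ j, a j • e j with hv
    have hvn : ‖v‖ ^ 2 = ‖a‖ ^ 2 := norm_comb e he a
    have hvi : ∀ x, ∑ j, a j * (⟪e j, x⟫_ℝ - τ j) = ⟪v, x⟫_ℝ - ∑ j, a j * τ j := by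
      intro x
      rw [hv, inner_comb, ← Finset.sum_sub_distrib]
      refine Finset.sum_congr rfl fun j _ => ?_
      ring
    set s : ℝ := ∑ j, a j * τ j with hs
    set T : ℝ := (∫ x, ⟪v, x⟫_ℝ * tw e K τ x ∂μ) / Z τ with hT
    have hTm : ∫ x, ⟪v, x⟫_ℝ * tw e K τ x ∂μ = T * ∫ x, tw e K τ x ∂μ := by
      show _ = (∫ x, ⟪v, x⟫_ℝ * tw e K τ x ∂μ) / Z τ * Z τ
      rw [div_mul_cancel₀ _ (hZpos τ).ne']
    have hlC : ContDiff ℝ 1 fun x : EuclideanSpace ℝ κ => ⟪v, x⟫_ℝ := (innerSL ℝ v).contDiff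
    have v1 := hvar f hf τ (M τ) (hMm τ)
    have v2 := hvar (fun x => ⟪v, x⟫_ℝ) hlC τ T hTm
    have hfd : ∀ x : EuclideanSpace ℝ κ, ‖fderiv ℝ (fun x => ⟪v, x⟫_ℝ) x‖ ^ 2 = ‖a‖ ^ 2 := by
      intro x
      have h1 : fderiv ℝ (fun x : EuclideanSpace ℝ κ => ⟪v, x⟫_ℝ) x = innerSL ℝ v :=
        (innerSL ℝ v).hasFDerivAt.fderiv
      rw [h1, innerSL_apply_norm, hvn]
    have v3 : ∫ x, ‖fderiv ℝ (fun x : EuclideanSpace ℝ κ => ⟪v, x⟫_ℝ) x‖ ^ 2 * tw e K τ x ∂μ =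
        ‖a‖ ^ 2 * Z τ := by
      simp only [hfd]
      rw [integral_const_mul]
    have hcs := cs μ hb (fun x => f x - M τ) (fun x => ⟪v, x⟫_ℝ - T) (tw e K τ)
      (by fun_prop) (by fun_prop) (hWc τ) (fun x => (tw_pos e K τ x).le)
    have i1 := intg μ hb (fun x => f x * tw e K τ x) (hfc.mul (hWc τ))
    have i2 := intg μ hb (fun x => tw e K τ x) (hWc τ)
    have i3 := intg μ hb (fun x => (f x - M τ) * (⟪v, x⟫_ℝ - T) * tw e K τ x)
      (Continuous.mul (by fun_prop) (hWc τ))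
    -- `M' Z = K⁻¹ ∫ (f - M) (ℓ - T) W`
    have hkey : fderiv ℝ M τ a * Z τ =
        K⁻¹ * ∫ x, (f x - M τ) * (⟪v, x⟫_ℝ - T) * tw e K τ x ∂μ := by
      have i4 := intg μ hb (fun x => f x * ((⟪v, x⟫_ℝ - s) / K) * tw e K τ x)
        (Continuous.mul (by fun_prop) (hWc τ))
      have i5 := intg μ hb (fun x => ((⟪v, x⟫_ℝ - s) / K) * tw e K τ x)
        (Continuous.mul (by fun_prop) (hWc τ))
      have hZd' : fderiv ℝ Z τ a = ∫ x, ((⟪v, x⟫_ℝ - s) / K) * tw e K τ x ∂μ := by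
        rw [hZd τ a]
        simp only [hvi]
      have hAd' : fderiv ℝ A τ a = ∫ x, f x * ((⟪v, x⟫_ℝ - s) / K) * tw e K τ x ∂μ := by
        rw [hAd τ a]
        simp only [hvi]
      have h2 : fderiv ℝ A τ a - M τ * fderiv ℝ Z τ a =
          ∫ x, (f x * ((⟪v, x⟫_ℝ - s) / K) * tw e K τ x -
            M τ * (((⟪v, x⟫_ℝ - s) / K) * tw e K τ x)) ∂μ := by
        rw [integral_sub i4 (i5.const_mul _), integral_const_mul, hZd', hAd']
      have h3 : (fun x => f x * ((⟪v, x⟫_ℝ - s) / K) * tw e K τ x -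
          M τ * (((⟪v, x⟫_ℝ - s) / K) * tw e K τ x)) = fun x =>
          (K⁻¹ * ((f x - M τ) * (⟪v, x⟫_ℝ - T) * tw e K τ x) +
            (K⁻¹ * (T - s)) * (f x * tw e K τ x)) + (-(K⁻¹ * (T - s) * M τ)) * tw e K τ x := by
        funext x
        field_simp
        ring
      rw [hMd τ a, h2, h3, int3 μ (fun x => (f x - M τ) * (⟪v, x⟫_ℝ - T) * tw e K τ x)
        (fun x => f x * tw e K τ x) (fun x => tw e K τ x) K⁻¹ (K⁻¹ * (T - s))
        (-(K⁻¹ * (T - s) * M τ)) i3 i1 i2, hMm τ]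
      ring
    set X := ∫ x, (f x - M τ) * (⟪v, x⟫_ℝ - T) * tw e K τ x ∂μ with hX
    have hD0 : 0 ≤ D τ := integral_nonneg fun x => mul_nonneg (by positivity) (tw_pos e K τ x).le
    have hXle : X ^ 2 ≤ (5 * K * D τ) * (5 * K * (‖a‖ ^ 2 * Z τ)) := by
      refine hcs.trans (mul_le_mul v1 (v2.trans (le_of_eq ?_)) ?_ (by positivity))
      · rw [v3]
      · exact integral_nonneg fun x => mul_nonneg (sq_nonneg _) (tw_pos e K τ x).le
    have h5 : (fderiv ℝ M τ a * Z τ) ^ 2 ≤ 25 * ‖a‖ ^ 2 * D τ * Z τ := by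
      rw [hkey, mul_pow]
      have h6 : (K⁻¹) ^ 2 * ((5 * K * D τ) * (5 * K * (‖a‖ ^ 2 * Z τ))) =
          25 * ‖a‖ ^ 2 * D τ * Z τ := by
        field_simp
        ring
      rw [← h6]
      exact mul_le_mul_of_nonneg_left hXle (by positivity)
    have h7 : ((fderiv ℝ M τ a) ^ 2 * Z τ) * Z τ ≤ (25 * ‖a‖ ^ 2 * D τ) * Z τ := by
      calc ((fderiv ℝ M τ a) ^ 2 * Z τ) * Z τ = (fderiv ℝ M τ a * Z τ) ^ 2 := by ring
        _ ≤ _ := h5
    exact le_of_mul_le_mul_right h7 (hZpos τ)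
  have hM'Z : ∀ τ, ‖fderiv ℝ M τ‖ ^ 2 * Z τ ≤ 25 * D τ := by
    intro τ
    have hD0 : 0 ≤ D τ := integral_nonneg fun x => mul_nonneg (by positivity) (tw_pos e K τ x).le
    have h1 : ‖fderiv ℝ M τ‖ ≤ Real.sqrt (25 * D τ / Z τ) := by
      refine ContinuousLinearMap.opNorm_le_bound _ (Real.sqrt_nonneg _) fun a => ?_
      rw [Real.norm_eq_abs]
      refine abs_le_of_sq_le_sq ?_ (by positivity)
      rw [mul_pow, Real.sq_sqrt (div_nonneg (by positivity) (hZpos τ).le)]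
      have h2 := hM'a τ a
      rw [div_mul_eq_mul_div, le_div_iff₀ (hZpos τ)]
      calc (fderiv ℝ M τ a) ^ 2 * Z τ ≤ 25 * ‖a‖ ^ 2 * D τ := h2
        _ = 25 * D τ * ‖a‖ ^ 2 := by ring
    have h2 : ‖fderiv ℝ M τ‖ ^ 2 ≤ 25 * D τ / Z τ := by
      have h3 := pow_le_pow_left₀ (norm_nonneg _) h1 2
      rwa [Real.sq_sqrt (div_nonneg (by positivity) (hZpos τ).le)] at h3
    rwa [le_div_iff₀ (hZpos τ)] at h2
  -- boundedness of the mean
  have hMb : ∃ B, ∀ τ, |M τ| ≤ B := by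
    obtain ⟨R, hR⟩ := hb
    obtain ⟨C, hC⟩ := (isCompact_closedBall (0 : EuclideanSpace ℝ κ) R).exists_bound_of_continuousOn
      hfc.continuousOn
    refine ⟨C, fun τ => ?_⟩
    have hae : ∀ᵐ x ∂μ, x ∈ Metric.closedBall (0 : EuclideanSpace ℝ κ) R := by
      rw [ae_iff]
      exact hR
    have h1 : |A τ| ≤ C * Z τ := by
      have h2 : |A τ| ≤ ∫ x, C * tw e K τ x ∂μ := by
        rw [← Real.norm_eq_abs]
        refine norm_integral_le_of_norm_le ((intg μ ⟨R, hR⟩ _ (hWc τ)).const_mul C) ?_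
        filter_upwards [hae] with x hx
        rw [norm_mul, Real.norm_of_nonneg (tw_pos e K τ x).le]
        exact mul_le_mul_of_nonneg_right (hC x hx) (tw_pos e K τ x).le
      rwa [integral_const_mul] at h2
    show |A τ / Z τ| ≤ C
    rw [abs_div, abs_of_pos (hZpos τ), div_le_iff₀ (hZpos τ)]
    exact h1
  have hM'i : Integrable fun τ => ‖fderiv ℝ M τ‖ ^ 2 * Z τ := by
    refine Integrable.mono' (hDi.const_mul 25) ((hM'c.norm.pow 2).mul hZc).aestronglyMeasurable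
      (Filter.Eventually.of_forall fun τ => ?_)
    rw [Real.norm_of_nonneg (mul_nonneg (sq_nonneg _) (hZpos τ).le)]
    exact hM'Z τ
  have hm0 : 0 ≤ (μ univ).toReal := ENNReal.toReal_nonneg
  have hmomZ : ∀ θ : EuclideanSpace ℝ (Fin q),
      Integrable (fun τ => ⟪θ, τ⟫_ℝ ^ 2 * Z τ) ∧
      ∫ τ, ⟪θ, τ⟫_ℝ ^ 2 * Z τ ≤ 2 * K * ‖θ‖ ^ 2 * ∫ τ, Z τ := by
    intro θ
    obtain ⟨i1, h1⟩ := tw_fub3 μ hb e K hK θ
    refine ⟨i1, ?_⟩
    have h1 : ∫ τ, ⟪θ, τ⟫_ℝ ^ 2 * Z τ =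
        G * ∫ x, ((∑ j, θ j * ⟪e j, x⟫_ℝ) ^ 2 + K * ‖θ‖ ^ 2) ∂μ := h1
    have h2 : ∫ τ, Z τ = G * ∫ _x, (1 : ℝ) ∂μ := hZI
    have h4 : ∫ _x, (1 : ℝ) ∂μ = (μ univ).toReal := by
      rw [integral_const, smul_eq_mul, mul_one]
      rfl
    have h3 : ∫ x, ((∑ j, θ j * ⟪e j, x⟫_ℝ) ^ 2 + K * ‖θ‖ ^ 2) ∂μ =
        ∫ x, ⟪∑ j, θ j • e j, x⟫_ℝ ^ 2 ∂μ + K * ‖θ‖ ^ 2 * (μ univ).toReal := by
      simp only [inner_comb]
      rw [integral_add (intg μ hb _ (by fun_prop)) (integrable_const _), integral_const,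
        smul_eq_mul, mul_comm (K * ‖θ‖ ^ 2)]
      rfl
    have h5 := hmom (∑ j, θ j • e j)
    rw [norm_comb e he θ] at h5
    rw [h1, h2, h4, h3]
    calc G * (∫ x, ⟪∑ j, θ j • e j, x⟫_ℝ ^ 2 ∂μ + K * ‖θ‖ ^ 2 * (μ univ).toReal) ≤
          G * (2 * K * ‖θ‖ ^ 2 * (μ univ).toReal) :=
          mul_le_mul_of_nonneg_left (by linarith) hGpos.le
      _ = 2 * K * ‖θ‖ ^ 2 * (G * (μ univ).toReal) := by ring
  obtain ⟨c, hc⟩ := crude Z M hZpos hZc hlcZ hZi (2 * K) (by positivity)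
    (fun θ => (hmomZ θ).1) (fun θ => (hmomZ θ).2) hMc1 hMb hM'i
  refine ⟨c, ?_⟩
  have hfin : ∫ τ, ‖fderiv ℝ M τ‖ ^ 2 * Z τ ≤ 25 * (G * J) := by
    calc ∫ τ, ‖fderiv ℝ M τ‖ ^ 2 * Z τ ≤ ∫ τ, 25 * D τ :=
          integral_mono hM'i (hDi.const_mul 25) hM'Z
      _ = 25 * (G * J) := by rw [integral_const_mul, hDI]
  obtain ⟨hFi, hFI, -, -⟩ := tw_fub μ hb e K hK (fun x => (f x - c) ^ 2) (by fun_prop)
  obtain ⟨B, hB⟩ := hMb
  have hMi : Integrable fun τ => (M τ - c) ^ 2 * Z τ := by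
    refine Integrable.mono' (hZi.const_mul ((B + |c|) ^ 2))
      (((hMc.sub continuous_const).pow 2).mul hZc).aestronglyMeasurable
      (Filter.Eventually.of_forall fun τ => ?_)
    rw [Real.norm_of_nonneg (mul_nonneg (sq_nonneg _) (hZpos τ).le)]
    refine mul_le_mul_of_nonneg_right ?_ (hZpos τ).le
    rw [← sq_abs]
    refine pow_le_pow_left₀ (abs_nonneg _) ?_ 2
    exact (abs_sub _ _).trans (add_le_add (hB τ) le_rfl)
  have hpt : ∀ τ, ∫ x, (f x - c) ^ 2 * tw e K τ x ∂μ ≤ 5 * K * D τ + (M τ - c) ^ 2 * Z τ := by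
    intro τ
    rw [expand μ hb f (tw e K τ) hfc (hWc τ) (M τ) (hMm τ) c]
    exact add_le_add (hvar f hf τ (M τ) (hMm τ)) le_rfl
  have hint : G * ∫ x, (f x - c) ^ 2 ∂μ ≤ 5 * K * (G * J) + ∫ τ, (M τ - c) ^ 2 * Z τ := by
    calc G * ∫ x, (f x - c) ^ 2 ∂μ = ∫ τ, ∫ x, (f x - c) ^ 2 * tw e K τ x ∂μ := hFI.symm
      _ ≤ ∫ τ, (5 * K * D τ + (M τ - c) ^ 2 * Z τ) :=
        integral_mono hFi ((hDi.const_mul _).add hMi) hpt
      _ = 5 * K * (G * J) + ∫ τ, (M τ - c) ^ 2 * Z τ := by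
        rw [integral_add (hDi.const_mul _) hMi, integral_const_mul, hDI]
  have h9 : G * ∫ x, (f x - c) ^ 2 ∂μ ≤ G * ((5 * K + 50 * C3 * K) * J) := by
    calc G * ∫ x, (f x - c) ^ 2 ∂μ ≤ 5 * K * (G * J) + ∫ τ, (M τ - c) ^ 2 * Z τ := hint
      _ ≤ 5 * K * (G * J) + C3 * (2 * K) * (25 * (G * J)) := by
        refine add_le_add le_rfl (hc.trans ?_)
        exact mul_le_mul_of_nonneg_left hfin (by positivity)
      _ = G * ((5 * K + 50 * C3 * K) * J) := by ring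
  have h10 := le_of_mul_le_mul_left h9 hGpos
  calc ∫ x, (f x - c) ^ 2 ∂μ ≤ (5 * K + 50 * C3 * K) * J := h10
    _ = (5 + 50 * C3) * K * J := by ring

end Pool.Agent.T6.H95.QG
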